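import Pool.Agent.Helper74.SO2.Foot

/-! Project SO2 (MP_2d033b_gt): from paths in the half tube to broken paths in the singular orbit. -/

namespace Pool.Agent.Helper74.SO2

open Filter Topology Set Pool.Agent.Helper54.SO
open scoped ContDiff

noncomputable section

theorem creep {a : ℝ} (ha : 0 ≤ a) (P : ℝ → Prop) (h0 : P 0)
    (hloc : ∀ s₀ ∈ Icc 0 a, ∃ η > 0, ∀ s ∈ Icc 0 a, |s - s₀| < η →
      (s₀ ≤ s → P s₀ → P s) ∧ (s ≤ s₀ → P s → P s₀)) : P a := by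
  set S : Set ℝ := {s | s ∈ Icc 0 a ∧ P s} with hS
  have hne : S.Nonempty := ⟨0, ⟨le_rfl, ha⟩, h0⟩
  have hbdd : BddAbove S := ⟨a, fun s hs => hs.1.2⟩
  set σ := sSup S with hσ
  have hσI : σ ∈ Icc 0 a := ⟨le_csSup hbdd ⟨⟨le_rfl, ha⟩, h0⟩, csSup_le hne fun s hs => hs.1.2⟩
  obtain ⟨η, hη, h⟩ := hloc σ hσI
  obtain ⟨s, hs, hs'⟩ := exists_lt_of_lt_csSup hne (show σ - η < σ by linarith)
  have hsσ : s ≤ σ := le_csSup hbdd hs
  have hPσ : P σ := (h s hs.1 (by rw [abs_lt]; constructor <;> linarith)).2 hsσ hs.2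
  rcases eq_or_lt_of_le hσI.2 with h1 | h1
  · rwa [← h1]
  · exfalso
    set s' := min a (σ + η / 2) with hs'd
    have h2 : σ < s' := lt_min h1 (by linarith)
    have h3 : s' ∈ Icc 0 a := ⟨hσI.1.trans h2.le, min_le_left _ _⟩
    have h4 : s' ≤ σ + η / 2 := min_le_right _ _
    have h5 := (h s' h3 (by rw [abs_lt]; constructor <;> linarith)).1 h2.le hPσ
    have h6 : s' ≤ σ := le_csSup hbdd ⟨h3, h5⟩
    linarith

section
variable {E : Type*} [NormedAddCommGroup E] [InnerProductSpace ℝ E] [FiniteDimensional ℝ E]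
  {Γ : Type*} [Group Γ] {k T : ℝ}

theorem inv_fix (D : End E Γ k T) {g : Γ} {x : E} (h : D.ρ g x = x) : D.ρ g⁻¹ x = x := by
  have h1 := D.ρ_mul g⁻¹ g x
  rw [inv_mul_cancel, D.ρ_one, h] at h1
  exact h1.symm

theorem mul_fix (D : End E Γ k T) {g h : Γ} {x : E} (hg : D.ρ g x = x) (hh : D.ρ h x = x) :
    D.ρ (g * h) x = x := by
  rw [D.ρ_mul, hh, hg]

/-- extension of a broken path by a conjugate of an exponential -/
theorem broken_ext (D : End E Γ k T) {h m e : Γ} {b : ℝ} {A : E →L[ℝ] E} (hA : A ∈ D.𝔤)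
    (he : ∀ x, D.ρ e x = NormedSpace.exp A x) (hb : D.Broken h b) (hm : D.ρ m (D.γ 0) = D.γ 0) :
    D.Broken (h * (m * e * m⁻¹)) (b + ‖A (D.γ 0)‖) := by
  obtain ⟨B, hB, hBx⟩ := D.ad m⁻¹ A hA
  rw [inv_inv] at hBx
  have h1 : ∀ x, D.ρ (m * e * m⁻¹) x = NormedSpace.exp B x := by
    intro x
    rw [D.ρ_mul, D.ρ_mul, he]
    have h2 := exp_conj_apply (D.ρ m) (A := B) (B := A) (fun y => by
      rw [hBx]
      have h3 := D.ρ_mul m⁻¹ m y
      rw [inv_mul_cancel, D.ρ_one] at h3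
      rw [← h3]) (D.ρ m⁻¹ x)
    rw [h2, D.ρ_inv_ρ]
  have h2 : ‖B (D.γ 0)‖ = ‖A (D.γ 0)‖ := by
    rw [hBx, inv_fix D hm, LinearIsometryEquiv.norm_map]
  rw [← h2]
  exact End.Broken.step h _ b B hB h1 hb

/-- lower bound for the Killing fields on the half tube, for both signs of `t` -/
theorem foot_le (D : End E Γ k T) (hk : 0 < k) (hT : 0 < T) {A : E →L[ℝ] E} (hA : A ∈ D.𝔤) {t : ℝ}
    (ht : |t| ≤ T / 2) : ‖A (D.γ 0)‖ ≤ 2 * Real.cosh (k * T / 2) * ‖A (D.γ t)‖ := by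
  rcases le_total 0 t with h0 | h0
  · rw [abs_of_nonneg h0] at ht
    exact lower_bound (D.toJF hT) hk hT ⟨A, hA⟩ ⟨h0, ht⟩
  · rw [abs_of_nonpos h0] at ht
    obtain ⟨g, hg⟩ := D.refl
    have h0T : (0:ℝ) ∈ Ioo (-T) T := ⟨by linarith, hT⟩
    have hg0 : D.ρ g (D.γ 0) = D.γ 0 := by have := hg 0 h0T; rwa [neg_zero] at this
    have hgt : D.ρ g (D.γ (-t)) = D.γ t := by
      have := hg (-t) ⟨by linarith, by linarith⟩
      rwa [neg_neg] at this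
    obtain ⟨B, hB, hBx⟩ := D.ad g A hA
    have h1 := lower_bound (D.toJF hT) hk hT ⟨B, hB⟩ ⟨by linarith, ht⟩
    have h2 : ‖B (D.γ 0)‖ ≤ 2 * Real.cosh (k * T / 2) * ‖B (D.γ (-t))‖ := h1
    rw [hBx, hBx, hg0, hgt, LinearIsometryEquiv.norm_map, LinearIsometryEquiv.norm_map] at h2
    exact h2

/-- local estimate at a point of the normal geodesic in the half tube -/
theorem local_le (D : Tube E Γ k T) (hk : 0 < k) (hT : 0 < T) {t : ℝ} (ht : |t| ≤ T / 2) :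
    ∀ᶠ y in 𝓝[D.M] (D.γ t), ∃ A ∈ D.𝔤, ∃ l : Γ, D.ρ l (D.γ 0) = D.γ 0 ∧ ∃ s ∈ Ioo (-T) T,
      y = NormedSpace.exp A (D.ρ l (D.γ s)) ∧
        ‖A (D.γ 0)‖ ≤ 3 * Real.cosh (k * T / 2) * ‖y - D.γ t‖ := by
  have htT : t ∈ Ioo (-T) T := by
    have := abs_le.1 ht
    constructor <;> linarith [this.1, this.2]
  obtain ⟨r, hr, h1⟩ := first_order D.toEnd htT (η := 1 / 20) (by norm_num) (by norm_num)
  filter_upwards [D.loc t htT r hr] with y hy
  obtain ⟨A, hA, hAn, l, hl, s, hs, hst, rfl⟩ := hy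
  refine ⟨A, hA, l, (D.foot l t htT t htT hl).1, s, hs, rfl, ?_⟩
  have h2 := h1 A hA hAn l hl s hst
  have h3 := foot_le D.toEnd hk hT hA ht
  set x := ‖A (D.γ t)‖ with hx
  set z := ‖NormedSpace.exp A (D.ρ l (D.γ s)) - D.γ t‖ with hz
  have hx0 : 0 ≤ x := norm_nonneg _
  have hz0 : 0 ≤ z := norm_nonneg _
  have h4 : 2 * x ≤ 3 * z := by
    apply le_of_sq_le_sq _ (by linarith)
    nlinarith
  have hc := Real.cosh_pos (k * T / 2)
  nlinarith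

end

end

end Pool.Agent.Helper74.SO2
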