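import Pool.Agent.Helper54.SO.Defs

/-! Project SO2 (MP_2d033b_gt): tubes round singular orbits. -/

namespace Pool.Agent.Helper74.SO2

open Filter Topology Set Pool.Agent.Helper54.SO

noncomputable section

section
variable {E : Type*} [NormedAddCommGroup E] [InnerProductSpace ℝ E] [FiniteDimensional ℝ E]
  {Γ : Type*} [Group Γ] {k T : ℝ}

/-- The normal space, in the tangent space of `M`, of the orbit of `p = γ 0`. -/
def nrm (D : End E Γ k T) : Submodule ℝ E :=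
  tang D.M (D.γ 0) ⊓ (LinearMap.range (ev D.𝔤 (D.γ 0)).toLinearMap)ᗮ

end

/-- A tube round the orbit of `p = γ 0`: a part of a manifold of cohomogeneity one (`End`) such that
`foot`: the points `γ t` have the foot point `p` and the distance `|t|` from the orbit;
`stab`: an element which fixes `p` fixes `γ t` iff it fixes the vector `γ' 0`;
`trans`: the isotropy group of `p` is transitive on the unit normal vectors at `p`;
`closed`: the group is compact;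
`loc`: near the point `γ t` the manifold is the product of the orbit and of a slice. -/
structure Tube (E : Type*) [NormedAddCommGroup E] [InnerProductSpace ℝ E] [FiniteDimensional ℝ E]
    (Γ : Type*) [Group Γ] (k T : ℝ) extends End E Γ k T where
  foot : ∀ g : Γ, ∀ t ∈ Ioo (-T) T, ∀ s ∈ Ioo (-T) T, ρ g (γ t) = γ s →
    ρ g (γ 0) = γ 0 ∧ |t| = |s|
  stab : ∀ g : Γ, ρ g (γ 0) = γ 0 → ∀ t ∈ Ioo 0 T,
    (ρ g (γ t) = γ t ↔ ρ g (deriv γ 0) = deriv γ 0)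
  trans : ∀ v ∈ nrm toEnd, ‖v‖ = 1 → ∃ g : Γ, ρ g (γ 0) = γ 0 ∧ ρ g (deriv γ 0) = v
  closed : ∀ φ : E ≃ₗᵢ[ℝ] E, (∀ ε : ℝ, 0 < ε → ∃ g : Γ, ∀ x, ‖ρ g x - φ x‖ ≤ ε * ‖x‖) →
    ∃ g : Γ, ρ g = φ
  loc : ∀ t ∈ Ioo (-T) T, ∀ δ : ℝ, 0 < δ → ∀ᶠ y in 𝓝[M] (γ t), ∃ A ∈ 𝔤, ‖A‖ ≤ δ ∧ ∃ l : Γ,
    ρ l (γ t) = γ t ∧ ∃ s ∈ Ioo (-T) T, |s - t| ≤ δ ∧ y = NormedSpace.exp A (ρ l (γ s))

/-- The half tube round the orbit of `γ 0`. -/
def Tube.half {E : Type*} [NormedAddCommGroup E] [InnerProductSpace ℝ E] [FiniteDimensional ℝ E]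
    {Γ : Type*} [Group Γ] {k T : ℝ} (D : Tube E Γ k T) : Set E :=
  {y | ∃ g : Γ, ∃ t : ℝ, |t| ≤ T / 2 ∧ y = D.ρ g (D.γ t)}

/-- An `ε`-approximation `F : N → X` of a metric space `X` by a manifold `N` which contains the tube
`M` and is invariant under the group, with the path metric of `N`. `inner`: a path in `N` of length
less than `T` from `p` to `g p` stays in the half tube. -/
structure Approx {E : Type*} [NormedAddCommGroup E] [InnerProductSpace ℝ E] [FiniteDimensional ℝ E]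
    {Γ : Type*} [Group Γ] {k T : ℝ} (D : Tube E Γ k T) (X : Type*) [MetricSpace X] (ε : ℝ) where
  N : Set E
  F : E → X
  sub : D.M ⊆ N
  inv : ∀ g : Γ, ∀ x ∈ N, D.ρ g x ∈ N
  upper : ∀ a, ∀ y ∈ N, ∀ z ∈ N, JoinLe N a y z → dist (F y) (F z) ≤ a + ε
  lower : ∀ y ∈ N, ∀ z ∈ N, JoinLe N (dist (F y) (F z) + ε) y z
  dense : ∀ x : X, ∃ y ∈ N, dist (F y) x ≤ ε
  inner : ∀ (g : Γ) (a : ℝ), a < T → JoinLe N a (D.γ 0) (D.ρ g (D.γ 0)) →
    JoinLe D.half a (D.γ 0) (D.ρ g (D.γ 0))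

/-- The isometry `g` of `X` is the limit, along the ultrafilter `U`, of the elements `h n` of the
groups: `F_n (y n) → x` implies `F_n (h n (y n)) → g x`. -/
def IsLimit {E Γ : ℕ → Type*} [∀ n, NormedAddCommGroup (E n)]
    [∀ n, InnerProductSpace ℝ (E n)] [∀ n, FiniteDimensional ℝ (E n)] [∀ n, Group (Γ n)] {k T : ℝ}
    {D : ∀ n, Tube (E n) (Γ n) k T} {X : Type*} [MetricSpace X] {ε : ℕ → ℝ}
    (A : ∀ n, Approx (D n) X (ε n)) (U : Ultrafilter ℕ) (h : ∀ n, Γ n) (g : X ≃ᵢ X) : Prop :=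
  ∀ (y : ∀ n, E n) (x : X), (∀ n, y n ∈ (A n).N) →
    Tendsto (fun n => (A n).F (y n)) U (𝓝 x) →
    Tendsto (fun n => (A n).F ((D n).ρ (h n) (y n))) U (𝓝 (g x))

end

end Pool.Agent.Helper74.SO2
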