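import Pool.Agent.Helper54.SO.M

/-! Project SO2 (MP_2d033b_gt): the lower bound for the Killing fields. -/

namespace Pool.Agent.Helper74.SO2

open Filter Topology Set Pool.Agent.Helper54.SO

noncomputable section

/-- minimum principle: a positive function with `y'' ≤ k² y` in the barrier sense lies above the
solution of `w'' = k² w` which vanishes at `τ` and is equal to `y` at `0`. -/
theorem comp_below {k T : ℝ} (hk : 0 < k) (y : ℝ → ℝ)
    (hlsc : ∀ t ∈ Ico 0 T, LowerSemicontinuousWithinAt y (Ico 0 T) t)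
    (hb : ∀ t ∈ Ioo 0 T, Barrier k y t) (hpos : ∀ t ∈ Ico 0 T, 0 ≤ y t)
    {τ : ℝ} (hτ : τ ∈ Ioo 0 T) {t : ℝ} (ht : t ∈ Icc 0 τ) :
    y 0 * Real.sinh (k * (τ - t)) ≤ y t * Real.sinh (k * τ) := by
  have hs0 : 0 < Real.sinh (k * τ) := Real.sinh_pos_iff.2 (mul_pos hk hτ.1)
  set c : ℝ := y 0 / Real.sinh (k * τ) with hc
  have hcs : c * Real.sinh (k * τ) = y 0 := by rw [hc]; field_simp
  set u : ℝ → ℝ := fun t => c * Real.sinh (k * (τ - t)) with hu
  set u' : ℝ → ℝ := fun t => c * (Real.cosh (k * (τ - t)) * (-k)) with hu'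
  have hmul : ∀ t, HasDerivAt (fun t => k * (τ - t)) (-k) t := fun t => by
    simpa using ((hasDerivAt_id t).const_sub τ).const_mul k
  have hud : ∀ t, HasDerivAt u (u' t) t := fun t =>
    ((Real.hasDerivAt_sinh (k * (τ - t))).comp t (hmul t)).const_mul _
  have hudd : ∀ t, HasDerivAt u' (k ^ 2 * u t) t := fun t => by
    have := (((Real.hasDerivAt_cosh (k * (τ - t))).comp t (hmul t)).mul_const (-k)).const_mul c
    have h2 : k ^ 2 * u t = c * (Real.sinh (k * (τ - t)) * (-k) * (-k)) := by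
      simp only [hu]; ring
    rw [h2]; exact this
  have hucont : Continuous u := continuous_iff_continuousAt.2 fun t => (hud t).continuousAt
  have hu0 : u 0 = y 0 := by simp only [hu, sub_zero]; exact hcs
  have huτ : u τ = 0 := by simp [hu]
  suffices h : u t ≤ y t by
    have h1 := mul_le_mul_of_nonneg_right h hs0.le
    have h2 : u t * Real.sinh (k * τ) = y 0 * Real.sinh (k * (τ - t)) := by
      simp only [hu]; rw [← hcs]; ring
    rwa [h2] at h1
  by_contra hcon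
  push Not at hcon
  set φ : ℝ → ℝ := fun t => y t + -(u t) with hφ
  have hφlsc : LowerSemicontinuousOn φ (Icc 0 τ) := by
    have h1 : LowerSemicontinuousOn y (Icc 0 τ) := fun t ht =>
      (hlsc t ⟨ht.1, ht.2.trans_lt hτ.2⟩).mono fun s hs => ⟨hs.1, hs.2.trans_lt hτ.2⟩
    exact h1.add (hucont.neg.lowerSemicontinuous.lowerSemicontinuousOn _)
  obtain ⟨s, hs, hsmin⟩ := hφlsc.exists_isMinOn (nonempty_Icc.2 hτ.1.le) isCompact_Icc
  have hsneg : φ s < 0 := lt_of_le_of_lt (hsmin ht) (by simp only [hφ]; linarith)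
  have hs0' : s ≠ 0 := by
    rintro rfl
    have : φ 0 = 0 := by simp only [hφ]; rw [hu0]; ring
    linarith
  have hst : s ≠ τ := by
    rintro rfl
    have h1 := hpos s ⟨hτ.1.le, hτ.2⟩
    simp only [hφ] at hsneg
    rw [huτ] at hsneg
    linarith
  have hsI : s ∈ Ioo 0 τ := ⟨lt_of_le_of_ne hs.1 (Ne.symm hs0'), lt_of_le_of_ne hs.2 hst⟩
  obtain ⟨z, z', z'', hz1, hz2, hz3, hz4, hz5⟩ := hb s ⟨hsI.1, hsI.2.trans hτ.2⟩
  refine no_min (f := fun t => z t - u t) (f' := fun t => z' t - u' t) (f'' := z'' - k ^ 2 * u s)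
    (s := s) ?_ ?_ ?_ ?_
  · filter_upwards [hz1, Ioo_mem_nhds hsI.1 hsI.2] with t ht htI
    have h1 : φ s ≤ φ t := hsmin (show t ∈ Icc 0 τ from ⟨htI.1.le, htI.2.le⟩)
    simp only [hφ] at h1
    rw [hz2]
    linarith
  · filter_upwards [hz3] with t ht
    exact ht.sub (hud t)
  · exact hz4.sub (hudd s)
  · have : k ^ 2 * (y s - u s) < 0 := by
      apply mul_neg_of_pos_of_neg (by positivity)
      simp only [hφ] at hsneg; linarith
    nlinarith

section
variable {V E : Type*} [NormedAddCommGroup V] [NormedSpace ℝ V] [FiniteDimensional ℝ V]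
    [NormedAddCommGroup E] [InnerProductSpace ℝ E] [FiniteDimensional ℝ E] {k T : ℝ}

/-- the lower bound, for `τ < T` -/
theorem lower_bound' (D : JF V E k T) (hk : 0 < k) (hT : 0 < T) (A : V) {τ : ℝ}
    (hτ : τ ∈ Ioo 0 T) {t : ℝ} (ht : t ∈ Icc 0 τ) :
    ‖D.J 0 A‖ * Real.sinh (k * (τ - t)) ≤ ‖D.J t A‖ * Real.sinh (k * τ) := by
  have h0T : (0:ℝ) ∈ Ioo (-T) T := ⟨by linarith, hT⟩
  have hs0 : 0 < Real.sinh (k * τ) := Real.sinh_pos_iff.2 (mul_pos hk hτ.1)
  by_cases hA : D.J 0 A = 0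
  · rw [hA, norm_zero, zero_mul]; exact mul_nonneg (norm_nonneg _) hs0.le
  set n := ‖D.J 0 A‖ with hn
  have hn0 : 0 < n := norm_pos_iff.2 hA
  set ξ : V →ₗ[ℝ] ℝ := (1 / n ^ 2) • ((innerₛₗ ℝ (D.J 0 A)) ∘ₗ (D.J 0).toLinearMap) with hξ
  have hξa : ∀ B, ξ B = 1 / n ^ 2 * inner ℝ (D.J 0 A) (D.J 0 B) := fun B => rfl
  have h1 : ξ A = 1 := by
    rw [hξa, real_inner_self_eq_norm_sq, ← hn]; field_simp
  have h2 : ∀ B, ξ B = 0 → inner ℝ (D.J 0 A) (D.J 0 B) = 0 := by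
    intro B hB
    rw [hξa] at hB
    rcases mul_eq_zero.1 hB with h | h
    · exfalso; have : 0 < 1 / n ^ 2 := by positivity
      linarith
    · exact h
  have h3 : ∀ B, D.J 0 B = 0 → ξ B = 0 := by
    intro B hB
    rw [hξa, hB, inner_zero_right, mul_zero]
  choose M hM1 hM2 using D.exists_min ξ A h1
  set y : ℝ → ℝ := fun s => ‖D.J s (M s)‖ with hy
  have hyle : ∀ s B, ξ B = 1 → y s ≤ ‖D.J s B‖ := fun s B hB => D.min_le ξ (hM1 s) (hM2 s) hB
  have hy0 : y 0 = n := le_antisymm (hyle 0 A h1) (D.min_le ξ h1 h2 (hM1 0))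
  have hne : ∀ s ∈ Ico 0 T, ∀ B, ξ B = 1 → D.J s B ≠ 0 := by
    intro s hs B hB h
    have h3' : D.J 0 B = 0 := by
      rcases eq_or_lt_of_le hs.1 with h0 | h0
      · subst h0; exact h
      · exact D.ker s ⟨h0, hs.2⟩ B h 0 h0T
    have := h3 B h3'
    linarith
  have hpos : ∀ s ∈ Ico 0 T, 0 < y s := fun s hs => norm_pos_iff.2 (hne s hs _ (hM1 s))
  have hlsc : ∀ s ∈ Ico 0 T, LowerSemicontinuousWithinAt y (Ico 0 T) s := by
    intro s hs c hc
    have hys := hpos s hs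
    set δ : ℝ := min (1 / 2) ((y s - c) / (2 * y s)) with hδ
    have hδ0 : 0 < δ := lt_min (by norm_num) (div_pos (by linarith) (by linarith))
    have hδ1 : δ < 1 := (min_le_left _ _).trans_lt (by norm_num)
    have hδ2 : δ * y s ≤ (y s - c) / 2 := by
      have h3 : δ ≤ (y s - c) / (2 * y s) := min_le_right _ _
      have h4 := mul_le_mul_of_nonneg_right h3 hys.le
      have h5 : (y s - c) / (2 * y s) * y s = (y s - c) / 2 := by field_simp
      rwa [h5] at h4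
    filter_upwards [D.stmtS ξ h3 s hs δ hδ0 hδ1] with r hr
    obtain ⟨B, hB1, hB2⟩ := hr (M r)
    rw [hM1] at hB1
    have h3 := hyle s B hB1
    have h4 : (1 - δ) * y s ≤ (1 - δ) * ‖D.J s B‖ := mul_le_mul_of_nonneg_left h3 (by linarith)
    have h5 : (1 - δ) * ‖D.J s B‖ ≤ y r := hB2
    nlinarith
  have hbarr : ∀ s ∈ Ioo 0 T, Barrier k y s := by
    intro s hs
    obtain ⟨z, z', z'', hz1, hz2, hz3, hz4, hz5⟩ := D.stmtB ξ s hs (M s) (hM1 s) (hM2 s)
      (hne s ⟨hs.1.le, hs.2⟩ _ (hM1 s))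
    refine ⟨z, z', z'', ?_, hz2, hz3, hz4, hz5⟩
    filter_upwards with r
    obtain ⟨B, hB1, hB2⟩ := hz1 r
    rw [hB2]
    exact hyle r B hB1
  have h4 := comp_below hk y hlsc hbarr (fun s hs => (hpos s hs).le) hτ ht
  rw [hy0] at h4
  exact h4.trans (mul_le_mul_of_nonneg_right (hyle t A h1) hs0.le)

/-- the lower bound on the half tube -/
theorem lower_bound (D : JF V E k T) (hk : 0 < k) (hT : 0 < T) (A : V) {t : ℝ}
    (ht : t ∈ Icc 0 (T / 2)) : ‖D.J 0 A‖ ≤ 2 * Real.cosh (k * T / 2) * ‖D.J t A‖ := by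
  have h1 : ∀ τ ∈ Ioo (T / 2) T,
      ‖D.J 0 A‖ * Real.sinh (k * (τ - t)) ≤ ‖D.J t A‖ * Real.sinh (k * τ) := fun τ hτ =>
    lower_bound' D hk hT A ⟨by linarith [hτ.1], hτ.2⟩ ⟨ht.1, ht.2.trans hτ.1.le⟩
  have h2 : ‖D.J 0 A‖ * Real.sinh (k * (T - t)) ≤ ‖D.J t A‖ * Real.sinh (k * T) := by
    have hl : Tendsto (fun τ : ℝ => ‖D.J 0 A‖ * Real.sinh (k * (τ - t))) (𝓝[<] T)
        (𝓝 (‖D.J 0 A‖ * Real.sinh (k * (T - t)))) := by
      apply Tendsto.mono_left _ nhdsWithin_le_nhds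
      apply Continuous.tendsto
      fun_prop
    have hr : Tendsto (fun τ : ℝ => ‖D.J t A‖ * Real.sinh (k * τ)) (𝓝[<] T)
        (𝓝 (‖D.J t A‖ * Real.sinh (k * T))) := by
      apply Tendsto.mono_left _ nhdsWithin_le_nhds
      apply Continuous.tendsto
      fun_prop
    refine le_of_tendsto_of_tendsto hl hr ?_
    filter_upwards [Ioo_mem_nhdsLT (show T / 2 < T by linarith)] with τ hτ
    exact h1 τ hτ
  have h3 : Real.sinh (k * T / 2) ≤ Real.sinh (k * (T - t)) := by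
    rw [Real.sinh_le_sinh]
    have := ht.2
    nlinarith
  have h4 : Real.sinh (k * T) = 2 * Real.sinh (k * T / 2) * Real.cosh (k * T / 2) := by
    rw [← Real.sinh_two_mul]; congr 1; ring
  have h5 : 0 < Real.sinh (k * T / 2) := Real.sinh_pos_iff.2 (by positivity)
  have h6 : ‖D.J 0 A‖ * Real.sinh (k * T / 2) ≤
      2 * Real.cosh (k * T / 2) * ‖D.J t A‖ * Real.sinh (k * T / 2) := by
    calc ‖D.J 0 A‖ * Real.sinh (k * T / 2) ≤ ‖D.J 0 A‖ * Real.sinh (k * (T - t)) :=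
          mul_le_mul_of_nonneg_left h3 (norm_nonneg _)
      _ ≤ ‖D.J t A‖ * Real.sinh (k * T) := h2
      _ = _ := by rw [h4]; ring
  exact le_of_mul_le_mul_right h6 h5

end

end

end Pool.Agent.Helper74.SO2
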