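import Pool.Agent.Helper54.SO.X
import Pool.Agent.Helper74.SO2.LB
import Pool.Agent.Helper74.SO2.Defs

/-! Project SO2 (MP_2d033b_gt): the foot point projection is Lipschitz; broken paths. -/

namespace Pool.Agent.Helper74.SO2

open Filter Topology Set Pool.Agent.Helper54.SO
open scoped ContDiff

noncomputable section

section
variable {E : Type*} [NormedAddCommGroup E] [InnerProductSpace ℝ E] [FiniteDimensional ℝ E]
  {Γ : Type*} [Group Γ] {k T : ℝ}

theorem norm_exp (D : End E Γ k T) {A : E →L[ℝ] E} (hA : A ∈ D.𝔤) (x : E) :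
    ‖NormedSpace.exp A x‖ = ‖x‖ := by
  obtain ⟨g, hg⟩ := D.exp A hA
  rw [← hg, LinearIsometryEquiv.norm_map]

theorem exp_sub_le (D : End E Γ k T) {A : E →L[ℝ] E} (hA : A ∈ D.𝔤) (x : E) {s : ℝ} (hs : 0 ≤ s) :
    ‖NormedSpace.exp (s • A) x - x‖ ≤ s * ‖A x‖ := by
  have h1 : ∀ r ∈ (Set.univ : Set ℝ), HasDerivWithinAt (fun r : ℝ => NormedSpace.exp (r • A) x)
      (NormedSpace.exp (r • A) (A x)) Set.univ r := fun r _ =>
    (hasDerivAt_exp_apply A x r).hasDerivWithinAt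
  have h2 : ∀ r ∈ (Set.univ : Set ℝ), ‖NormedSpace.exp (r • A) (A x)‖ ≤ ‖A x‖ := fun r _ =>
    (norm_exp D (D.𝔤.smul_mem r hA) _).le
  have h3 := convex_univ.norm_image_sub_le_of_norm_hasDerivWithin_le h1 h2 (Set.mem_univ (0:ℝ))
    (Set.mem_univ s)
  simp only [zero_smul, NormedSpace.exp_zero, sub_zero, Real.norm_of_nonneg hs] at h3
  rw [mul_comm]
  exact h3

theorem exp_sub_sub_le (D : End E Γ k T) {A : E →L[ℝ] E} (hA : A ∈ D.𝔤) (x : E) :
    ‖NormedSpace.exp A x - x - A x‖ ≤ ‖A‖ * ‖A x‖ := by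
  have h1 : ∀ r ∈ Icc (0:ℝ) 1, HasDerivWithinAt (fun r : ℝ => NormedSpace.exp (r • A) x - r • A x)
      (NormedSpace.exp (r • A) (A x) - A x) (Icc (0:ℝ) 1) r := fun r _ => by
    have h2 : HasDerivAt (fun r : ℝ => r • A x) (A x) r := by
      simpa using (hasDerivAt_id r).smul_const (A x)
    exact ((hasDerivAt_exp_apply A x r).sub h2).hasDerivWithinAt
  have h2 : ∀ r ∈ Icc (0:ℝ) 1, ‖NormedSpace.exp (r • A) (A x) - A x‖ ≤ ‖A‖ * ‖A x‖ := by
    intro r hr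
    calc ‖NormedSpace.exp (r • A) (A x) - A x‖ ≤ r * ‖A (A x)‖ := exp_sub_le D hA _ hr.1
      _ ≤ 1 * ‖A (A x)‖ := mul_le_mul_of_nonneg_right hr.2 (norm_nonneg _)
      _ ≤ ‖A‖ * ‖A x‖ := by rw [one_mul]; exact A.le_opNorm _
  have h3 := (convex_Icc (0:ℝ) 1).norm_image_sub_le_of_norm_hasDerivWithin_le h1 h2
    (left_mem_Icc.2 zero_le_one) (right_mem_Icc.2 zero_le_one)
  simp only [zero_smul, one_smul, NormedSpace.exp_zero, sub_zero, norm_one, mul_one] at h3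
  have h4 : NormedSpace.exp A x - x - A x = NormedSpace.exp A x - A x - (1 : E →L[ℝ] E) x := by
    simp only [one_apply_eq_self]; abel
  rw [h4]
  exact h3

theorem hasDerivAt_lin (D : End E Γ k T) {t : ℝ} (ht : t ∈ Ioo (-T) T) {η : ℝ} (hη : 0 < η) :
    ∃ r > 0, ∀ s, |s - t| ≤ r → ‖D.γ s - D.γ t - (s - t) • deriv D.γ t‖ ≤ η * |s - t| := by
  have h1 := (D.hasDerivAt_γ ht).isLittleO.def hη
  obtain ⟨ε, hε, h2⟩ := Metric.eventually_nhds_iff.1 h1
  refine ⟨ε / 2, half_pos hε, fun s hs => ?_⟩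
  have h3 : dist s t < ε := by rw [Real.dist_eq]; linarith
  have h4 := h2 h3
  rwa [Real.norm_eq_abs] at h4

/-- the first order estimate -/
theorem first_order (D : End E Γ k T) {t : ℝ} (ht : t ∈ Ioo (-T) T) {η : ℝ} (hη : 0 < η)
    (hη1 : η ≤ 1 / 2) : ∃ r > 0, ∀ A ∈ D.𝔤, ‖A‖ ≤ r → ∀ l : Γ, D.ρ l (D.γ t) = D.γ t →
      ∀ s, |s - t| ≤ r → ((1 - η) ^ 2 - 16 * η ^ 2) * ‖A (D.γ t)‖ ^ 2 ≤
        ‖NormedSpace.exp A (D.ρ l (D.γ s)) - D.γ t‖ ^ 2 := by
  obtain ⟨r₀, hr₀, hlin⟩ := hasDerivAt_lin D ht hη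
  refine ⟨min r₀ η, lt_min hr₀ hη, fun A hA hAn l hl s hs => ?_⟩
  have hAη : ‖A‖ ≤ η := hAn.trans (min_le_right _ _)
  have hsr : |s - t| ≤ r₀ := hs.trans (min_le_left _ _)
  have hlin' := hlin s hsr
  set q := D.γ t with hq
  set u := deriv D.γ t with hu
  set w := A q with hw
  set d := D.ρ l (D.γ s) - q with hd
  set f := D.ρ l (D.γ s - q - (s - t) • u) with hf
  have hdf : d = (s - t) • D.ρ l u + f := by
    rw [hd, hf, map_sub, map_sub, map_smul, hl]; abel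
  have hfn : ‖f‖ ≤ η * |s - t| := by rw [hf, LinearIsometryEquiv.norm_map]; exact hlin'
  have hun : ‖D.ρ l u‖ = 1 := by rw [LinearIsometryEquiv.norm_map, hu, D.unit t ht]
  have hdn : (1 - η) * |s - t| ≤ ‖d‖ := by
    have h1 : ‖(s - t) • D.ρ l u‖ ≤ ‖d‖ + ‖f‖ := by
      have h2 : (s - t) • D.ρ l u = d - f := by rw [hdf]; abel
      rw [h2]; exact norm_sub_le _ _
    rw [norm_smul, hun, mul_one, Real.norm_eq_abs] at h1
    linarith
  have hst : |s - t| ≤ 2 * ‖d‖ := by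
    have h0 := abs_nonneg (s - t)
    nlinarith
  have hwu : inner ℝ w (D.ρ l u) = 0 := by
    obtain ⟨B, hB, hBx⟩ := D.ad l A hA
    have h1 : D.ρ l (B q) = w := by
      rw [hBx, hl, End.ρ_inv_ρ]
    rw [← h1, LinearIsometryEquiv.inner_map_map, real_inner_comm]
    exact D.orth t ht B hB
  set e := NormedSpace.exp A q - q - w with he
  have hen : ‖e‖ ≤ η * ‖w‖ := by
    refine (exp_sub_sub_le D hA q).trans ?_
    exact mul_le_mul_of_nonneg_right hAη (norm_nonneg _)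
  have hAd : ‖NormedSpace.exp A d - d‖ ≤ η * ‖d‖ := by
    have h1 := exp_sub_le D hA d (zero_le_one)
    rw [one_smul, one_mul] at h1
    refine h1.trans ((A.le_opNorm d).trans ?_)
    exact mul_le_mul_of_nonneg_right hAη (norm_nonneg _)
  have hEd : ‖NormedSpace.exp A d‖ = ‖d‖ := norm_exp D hA d
  have hsum : NormedSpace.exp A (D.ρ l (D.γ s)) - q = NormedSpace.exp A d + (w + e) := by
    rw [hd, he, map_sub]; abel
  have hin : |inner ℝ (NormedSpace.exp A d) (w + e)| ≤ 4 * η * ‖d‖ * ‖w‖ := by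
    have h1 : inner ℝ (NormedSpace.exp A d) (w + e) =
        inner ℝ f w + inner ℝ (NormedSpace.exp A d - d) w + inner ℝ (NormedSpace.exp A d) e := by
      have h2 : inner ℝ d w = inner ℝ f w := by
        rw [hdf, inner_add_left, inner_smul_left, real_inner_comm, hwu, mul_zero, zero_add]
      rw [inner_add_right, inner_sub_left, h2]; ring
    have h2 : |inner ℝ f w| ≤ 2 * η * ‖d‖ * ‖w‖ := by
      refine (abs_real_inner_le_norm _ _).trans ?_
      refine mul_le_mul_of_nonneg_right (hfn.trans ?_) (norm_nonneg _)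
      nlinarith
    have h3 : |inner ℝ (NormedSpace.exp A d - d) w| ≤ η * ‖d‖ * ‖w‖ :=
      (abs_real_inner_le_norm _ _).trans (mul_le_mul_of_nonneg_right hAd (norm_nonneg _))
    have h4 : |inner ℝ (NormedSpace.exp A d) e| ≤ η * ‖d‖ * ‖w‖ := by
      refine (abs_real_inner_le_norm _ _).trans ?_
      rw [hEd]
      calc ‖d‖ * ‖e‖ ≤ ‖d‖ * (η * ‖w‖) := mul_le_mul_of_nonneg_left hen (norm_nonneg _)
        _ = _ := by ring
    rw [h1]
    calc _ ≤ |inner ℝ f w| + |inner ℝ (NormedSpace.exp A d - d) w| +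
          |inner ℝ (NormedSpace.exp A d) e| := (abs_add_le _ _).trans
            (add_le_add_left (abs_add_le _ _) _)
      _ ≤ 2 * η * ‖d‖ * ‖w‖ + η * ‖d‖ * ‖w‖ + η * ‖d‖ * ‖w‖ := by linarith
      _ = _ := by ring
  have hwe : (1 - η) * ‖w‖ ≤ ‖w + e‖ := by
    have h1 : ‖w‖ ≤ ‖w + e‖ + ‖e‖ := by
      have h2 : w = (w + e) - e := by abel
      conv_lhs => rw [h2]
      exact norm_sub_le _ _
    linarith
  have hwe2 : (1 - η) ^ 2 * ‖w‖ ^ 2 ≤ ‖w + e‖ ^ 2 := by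
    rw [← mul_pow]
    exact pow_le_pow_left₀ (mul_nonneg (by linarith) (norm_nonneg _)) hwe 2
  rw [hsum, norm_add_sq_real, hEd]
  have h5 := (abs_le.1 hin).1
  nlinarith [sq_nonneg (‖d‖ - 4 * η * ‖w‖)]

end

end

end Pool.Agent.Helper74.SO2
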