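import Pool.Agent.Helper74.SO2.Sph

/-! Project SO2 (MP_2d033b_gt): the action of the isotropy group on the normal space. -/

namespace Pool.Agent.Helper74.SO2

open Filter Topology Set Pool.Agent.Helper54.SO
open scoped ContDiff

noncomputable section

theorem joinLe_sub {E : Type*} [NormedAddCommGroup E] [InnerProductSpace ℝ E] {S S' : Set E} {a : ℝ}
    {x y : E} (h : JoinLe S a x y) (hS : S ⊆ S') : JoinLe S' a x y := by
  obtain ⟨ha, c, hc, hcS, h0, h1⟩ := h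
  exact ⟨ha, c, hc, fun s hs => hS (hcS s hs), h0, h1⟩

section
variable {E : Type*} [NormedAddCommGroup E] [InnerProductSpace ℝ E] [FiniteDimensional ℝ E]
  {Γ : Type*} [Group Γ] {k T : ℝ}

theorem deriv_mem_nrm (D : End E Γ k T) (hT : 0 < T) : deriv D.γ 0 ∈ nrm D := by
  have h0T : (0:ℝ) ∈ Ioo (-T) T := ⟨by linarith, hT⟩
  refine Submodule.mem_inf.2 ⟨?_, ?_⟩
  · refine Submodule.subset_span ⟨D.γ, D.smooth.contDiffAt (Ioo_mem_nhds h0T.1 h0T.2), rfl, ?_, rfl⟩
    filter_upwards [Ioo_mem_nhds h0T.1 h0T.2] with s hs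
    exact D.mem s hs
  · rw [Submodule.mem_orthogonal']
    rintro w ⟨A, rfl⟩
    exact D.orth 0 h0T A.1 A.2

theorem map_tang (D : End E Γ k T) {l : Γ} (hl : D.ρ l (D.γ 0) = D.γ 0) {v : E}
    (hv : v ∈ tang D.M (D.γ 0)) : D.ρ l v ∈ tang D.M (D.γ 0) := by
  have h1 : tang D.M (D.γ 0) ≤
      (tang D.M (D.γ 0)).comap (D.ρ l).toLinearEquiv.toLinearMap := by
    refine Submodule.span_le.2 ?_
    rintro w ⟨c, hc, hc0, hcM, rfl⟩
    refine Submodule.subset_span ⟨fun s => D.ρ l (c s), ?_, ?_, ?_, ?_⟩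
    · exact (D.ρ l).toContinuousLinearEquiv.toContinuousLinearMap.contDiff.contDiffAt.comp 0 hc
    · change D.ρ l (c 0) = D.γ 0
      rw [hc0, hl]
    · filter_upwards [hcM] with s hs
      exact D.inv l _ hs
    · have h2 : HasDerivAt c (deriv c 0) 0 :=
        (hc.differentiableAt (by simp)).hasDerivAt
      have h3 : HasDerivAt (fun s => D.ρ l (c s)) (D.ρ l (deriv c 0)) 0 :=
        (D.ρ l).toContinuousLinearEquiv.toContinuousLinearMap.hasFDerivAt.comp_hasDerivAt 0 h2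
      exact h3.deriv
  exact h1 hv

theorem map_nrm (D : End E Γ k T) {l : Γ} (hl : D.ρ l (D.γ 0) = D.γ 0) {v : E}
    (hv : v ∈ nrm D) : D.ρ l v ∈ nrm D := by
  obtain ⟨h1, h2⟩ := Submodule.mem_inf.1 hv
  refine Submodule.mem_inf.2 ⟨map_tang D hl h1, ?_⟩
  rw [Submodule.mem_orthogonal'] at h2 ⊢
  rintro w ⟨A, rfl⟩
  obtain ⟨B, hB, hBx⟩ := D.ad l A.1 A.2
  have h3 : D.ρ l (B (D.γ 0)) = A.1 (D.γ 0) := by
    rw [hBx, hl, End.ρ_inv_ρ]
  have h4 := h2 (B (D.γ 0)) ⟨⟨B, hB⟩, rfl⟩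
  change inner ℝ (D.ρ l v) (A.1 (D.γ 0)) = 0
  rw [← h3, LinearIsometryEquiv.inner_map_map, h4]

/-- the action of an element of the isotropy group on the normal space -/
def restr (D : End E Γ k T) (l : Γ) (hl : D.ρ l (D.γ 0) = D.γ 0) : nrm D →ₗᵢ[ℝ] nrm D where
  toLinearMap := (D.ρ l).toLinearEquiv.toLinearMap.restrict fun _ hv => map_nrm D hl hv
  norm_map' v := by
    change ‖D.ρ l v‖ = ‖(v : E)‖
    rw [LinearIsometryEquiv.norm_map]

theorem restr_coe (D : End E Γ k T) (l : Γ) (hl : D.ρ l (D.γ 0) = D.γ 0) (v : nrm D) :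
    ((restr D l hl v : nrm D) : E) = D.ρ l v := rfl

/-- identification of the normal space with a Euclidean space -/
def coord (D : End E Γ k T) {d : ℕ} (hd : Module.finrank ℝ (nrm D) = d) :
    EuclideanSpace ℝ (Fin d) ≃ₗᵢ[ℝ] nrm D :=
  ((stdOrthonormalBasis ℝ (nrm D)).reindex (finCongr hd)).repr.symm

/-- the action of the isotropy group in coordinates -/
def act (D : End E Γ k T) {d : ℕ} (hd : Module.finrank ℝ (nrm D) = d) (l : Γ)
    (hl : D.ρ l (D.γ 0) = D.γ 0) : EuclideanSpace ℝ (Fin d) →ₗᵢ[ℝ] EuclideanSpace ℝ (Fin d) :=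
  (coord D hd).symm.toLinearIsometry.comp ((restr D l hl).comp (coord D hd).toLinearIsometry)

theorem coord_act (D : End E Γ k T) {d : ℕ} (hd : Module.finrank ℝ (nrm D) = d) (l : Γ)
    (hl : D.ρ l (D.γ 0) = D.γ 0) (u : EuclideanSpace ℝ (Fin d)) :
    ((coord D hd (act D hd l hl u) : nrm D) : E) = D.ρ l (coord D hd u : nrm D) := by
  change ((coord D hd ((coord D hd).symm (restr D l hl (coord D hd u))) : nrm D) : E) = _
  rw [LinearIsometryEquiv.apply_symm_apply, restr_coe]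

end

end

end Pool.Agent.Helper74.SO2
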