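import Pool.Agent.Helper54.SO.M
import Pool.Agent.Helper74.SO2.Nrm

/-! Project SO2 (MP_2d033b_gt): limits of tubes round singular orbits. -/

namespace Pool.Agent.Helper74.SO2

open Filter Topology Set Metric Pool.Agent.Helper54.SO

noncomputable section

section
variable {E : Type*} [NormedAddCommGroup E] [InnerProductSpace ℝ E] [FiniteDimensional ℝ E]
  {Γ : Type*} [Group Γ] {k T : ℝ}

/-- The quantitative theorem: if `g p` can be joined to `p` in the half tube by a path of length at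
most `a`, then `g γ(t)` can be joined to a point `l γ(t)`, `l p = p`, by a path in its orbit of length
at most `C a + δ`. -/
theorem core (D : Tube E Γ k T) (hk : 0 < k) {t : ℝ} (ht : t ∈ Ioo 0 T) (g : Γ) {a : ℝ}
    (ha : JoinLe D.half a (D.γ 0) (D.ρ g (D.γ 0))) {δ : ℝ} (hδ : 0 < δ) :
    ∃ l : Γ, D.ρ l (D.γ 0) = D.γ 0 ∧ JoinLe (D.orb (D.γ t))
      ((D.dim : ℝ) * Real.cosh (k * T) * (3 * Real.cosh (k * T / 2) * a) + δ) (D.ρ l (D.γ t))
        (D.ρ g (D.γ t)) := by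
  have hT : 0 < T := ht.1.trans ht.2
  obtain ⟨P, hP0, hP⟩ := (D.toEnd.toJF hT).stmtM hk hT t ht
  obtain ⟨l₀, b, hl₀, hB, hb⟩ := broken_of_join D hk hT ha
  have hC : (0:ℝ) ≤ (D.dim : ℝ) * Real.cosh (k * T) :=
    mul_nonneg (Nat.cast_nonneg _) (Real.cosh_pos _).le
  have hl₀' : D.ρ l₀⁻¹ (D.γ 0) = D.γ 0 := inv_fix D.toEnd hl₀
  obtain ⟨l, hl, hJ⟩ := D.toEnd.stmtX t ((D.dim : ℝ) * Real.cosh (k * T)) hC P hP0 hP (g * l₀) b hB
    l₀⁻¹ hl₀' δ hδ
  refine ⟨l, hl, ?_⟩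
  rw [mul_inv_cancel_right] at hJ
  exact hJ.mono (add_le_add_left (mul_le_mul_of_nonneg_left hb hC) δ)

variable {X : Type*} [MetricSpace X] {ε : ℝ}

theorem Approx.orb_sub (D : Tube E Γ k T) {t : ℝ} (ht : t ∈ Ioo 0 T) : D.orb (D.γ t) ⊆ D.M := by
  rintro y ⟨g, rfl⟩
  exact D.inv g _ (D.mem t ⟨by linarith [ht.1, ht.2], ht.2⟩)

/-- the map on the unit sphere, in coordinates -/
def Approx.Q {D : Tube E Γ k T} (A : Approx D X ε) {d : ℕ}
    (hd : Module.finrank ℝ (nrm D.toEnd) = d) (t : ℝ) (u : EuclideanSpace ℝ (Fin d)) : X :=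
  A.F (pt D t (coord D.toEnd hd u : nrm D.toEnd))

theorem Approx.lip {D : Tube E Γ k T} (A : Approx D X ε) (hk : 0 < k) {d : ℕ}
    (hd : Module.finrank ℝ (nrm D.toEnd) = d) {t : ℝ} (ht : t ∈ Ioo 0 T)
    {u v : EuclideanSpace ℝ (Fin d)} (hu : ‖u‖ = 1) (hv : ‖v‖ = 1) (huv : ‖v - u‖ ≤ 1) :
    dist (A.Q hd t u) (A.Q hd t v) ≤ 8 * (Real.sinh (k * T) / k) * ‖v - u‖ + ε := by
  have h1 : ∀ w : EuclideanSpace ℝ (Fin d), ‖((coord D.toEnd hd w : nrm D.toEnd) : E)‖ = ‖w‖ :=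
    fun w => (coord D.toEnd hd).norm_map w
  have h2 : ((coord D.toEnd hd v : nrm D.toEnd) : E) - (coord D.toEnd hd u : nrm D.toEnd) =
      (coord D.toEnd hd (v - u) : nrm D.toEnd) := by rw [map_sub]; rfl
  have h3 := lip_sph D hk ht (coord D.toEnd hd u).2 (by rw [h1, hu]) (coord D.toEnd hd v).2
    (by rw [h1, hv]) (by rw [h2, h1]; exact huv)
  rw [h2, h1] at h3
  have h4 := A.upper _ _ (A.sub (pt_mem D ht _)) _ (A.sub (pt_mem D ht _)) (joinLe_sub h3 A.sub)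
  refine h4.trans (add_le_add_left ?_ ε)
  have h5 : Real.sinh (k * t) ≤ Real.sinh (k * T) := by
    rw [Real.sinh_le_sinh]; exact mul_le_mul_of_nonneg_left ht.2.le hk.le
  have h6 : Real.sinh (k * t) / k ≤ Real.sinh (k * T) / k := div_le_div_of_nonneg_right h5 hk.le
  nlinarith [norm_nonneg (v - u)]

theorem Approx.equi {D : Tube E Γ k T} (A : Approx D X ε) (g : Γ) {y z : E} (hy : y ∈ A.N)
    (hz : z ∈ A.N) : dist (A.F (D.ρ g y)) (A.F (D.ρ g z)) ≤ dist (A.F y) (A.F z) + 2 * ε := by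
  have h1 := (A.lower y hy z hz).map (D.ρ g) (A.inv g)
  have h2 := A.upper _ _ (A.inv g y hy) _ (A.inv g z hz) h1
  linarith

theorem Approx.equi' {D : Tube E Γ k T} (A : Approx D X ε) (g : Γ) {y z : E} (hy : y ∈ A.N)
    (hz : z ∈ A.N) : dist (A.F y) (A.F z) ≤ dist (A.F (D.ρ g y)) (A.F (D.ρ g z)) + 2 * ε := by
  have h1 := A.equi g⁻¹ (A.inv g y hy) (A.inv g z hz)
  rwa [← D.ρ_mul, ← D.ρ_mul, inv_mul_cancel, D.ρ_one, D.ρ_one] at h1

theorem Approx.Q_act {D : Tube E Γ k T} (A : Approx D X ε) {d : ℕ}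
    (hd : Module.finrank ℝ (nrm D.toEnd) = d) {t : ℝ} (ht : t ∈ Ioo 0 T) (l : Γ)
    (hl : D.ρ l (D.γ 0) = D.γ 0) {w : EuclideanSpace ℝ (Fin d)} (hw : ‖w‖ = 1) :
    A.Q hd t (act D.toEnd hd l hl w) =
      A.F (D.ρ l (pt D t (coord D.toEnd hd w : nrm D.toEnd))) := by
  unfold Approx.Q
  rw [coord_act, pt_equi D ht hl (coord D.toEnd hd w).2]
  have h1 : ‖((coord D.toEnd hd w : nrm D.toEnd) : E)‖ = ‖w‖ := (coord D.toEnd hd).norm_map w
  rw [h1, hw]

end

/-- the limit of isometries along an ultrafilter -/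
theorem exists_lim_isom {d : ℕ} (U : Ultrafilter ℕ)
    (a : ℕ → (EuclideanSpace ℝ (Fin d) →ₗᵢ[ℝ] EuclideanSpace ℝ (Fin d))) :
    ∃ b : EuclideanSpace ℝ (Fin d) ≃ₗᵢ[ℝ] EuclideanSpace ℝ (Fin d),
      ∀ w, Tendsto (fun n => a n w) U (𝓝 (b w)) := by
  set V := EuclideanSpace ℝ (Fin d)
  set L : ℕ → (V →L[ℝ] V) := fun n => (a n).toContinuousLinearMap with hL
  have hproper : ProperSpace (V →L[ℝ] V) := FiniteDimensional.proper ℝ (V →L[ℝ] V)
  have hLb : ∀ n, L n ∈ closedBall (0 : V →L[ℝ] V) 1 := fun n => by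
    rw [mem_closedBall_zero_iff]
    exact ContinuousLinearMap.opNorm_le_bound _ zero_le_one fun x => by
      change ‖a n x‖ ≤ _
      rw [LinearIsometry.norm_map, one_mul]
  obtain ⟨L₀, -, hL₀⟩ := (isCompact_closedBall (0 : V →L[ℝ] V) 1).ultrafilter_le_nhds (U.map L)
    (by
      rw [le_principal_iff]
      exact Filter.mem_map.2 (Filter.univ_mem' hLb))
  have hlim : Tendsto L U (𝓝 L₀) := hL₀
  have happ : ∀ x, Tendsto (fun n => a n x) U (𝓝 (L₀ x)) := fun x =>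
    ((ContinuousLinearMap.apply ℝ V x).continuous.tendsto L₀).comp hlim
  have hnorm : ∀ x, ‖L₀ x‖ = ‖x‖ := fun x => by
    refine tendsto_nhds_unique (happ x).norm ?_
    simp only [LinearIsometry.norm_map]
    exact tendsto_const_nhds
  set Λ : V →ₗᵢ[ℝ] V := ⟨L₀.toLinearMap, hnorm⟩ with hΛ
  exact ⟨Λ.toLinearIsometryEquiv rfl, happ⟩

section limit
variable {E Γ : ℕ → Type*} [∀ n, NormedAddCommGroup (E n)]
    [∀ n, InnerProductSpace ℝ (E n)] [∀ n, FiniteDimensional ℝ (E n)] [∀ n, Group (Γ n)] {k T : ℝ}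
    {D : ∀ n, Tube (E n) (Γ n) k T} {X : Type*} [MetricSpace X] [CompactSpace X] {ε : ℕ → ℝ}

/-- every sequence of elements of the groups has a limit isometry -/
theorem exists_isLimit (A : ∀ n, Approx (D n) X (ε n)) (U : Ultrafilter ℕ)
    (hε : Tendsto ε U (𝓝 0)) (h : ∀ n, Γ n) : ∃ g : X ≃ᵢ X, IsLimit A U h g := by
  classical
  have h2ε : Tendsto (fun n => 2 * ε n) U (𝓝 0) := by simpa using hε.const_mul 2
  choose c hc hcε using fun n => (A n).dense
  have hcl : ∀ x, Tendsto (fun n => (A n).F (c n x)) U (𝓝 x) := fun x => by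
    rw [tendsto_iff_dist_tendsto_zero]
    exact squeeze_zero (fun n => dist_nonneg) (fun n => hcε n x) hε
  have hex : ∀ f : ℕ → X, ∃ x, Tendsto f U (𝓝 x) := by
    intro f
    obtain ⟨x, -, hx⟩ := (isCompact_univ (X := X)).ultrafilter_le_nhds (U.map f)
      (by rw [le_principal_iff]; exact Filter.univ_mem)
    exact ⟨x, hx⟩
  have key : ∀ h : ∀ n, Γ n, ∃ g : X → X, ∀ (y : ∀ n, E n) (x : X), (∀ n, y n ∈ (A n).N) →
      Tendsto (fun n => (A n).F (y n)) U (𝓝 x) →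
      Tendsto (fun n => (A n).F ((D n).ρ (h n) (y n))) U (𝓝 (g x)) := by
    intro h
    choose g hg using fun x => hex fun n => (A n).F ((D n).ρ (h n) (c n x))
    refine ⟨g, fun y x hy hyx => ?_⟩
    have h1 : Tendsto (fun n => dist ((A n).F (y n)) ((A n).F (c n x)) + 2 * ε n) U (𝓝 0) := by
      have h2 := (hyx.dist (hcl x)).add h2ε
      rwa [dist_self, add_zero] at h2
    have h3 : Tendsto (fun n => dist ((A n).F ((D n).ρ (h n) (y n)))
        ((A n).F ((D n).ρ (h n) (c n x)))) U (𝓝 0) :=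
      squeeze_zero (fun n => dist_nonneg) (fun n => (A n).equi (h n) (hy n) (hc n x)) h1
    have h4 := hg x
    rw [tendsto_iff_dist_tendsto_zero] at h4 ⊢
    exact squeeze_zero (fun n => dist_nonneg) (fun n => dist_triangle _ _ _)
      (by simpa using h3.add h4)
  obtain ⟨g, hg⟩ := key h
  obtain ⟨g', hg'⟩ := key fun n => (h n)⁻¹
  have hgg' : ∀ x, g (g' x) = x := by
    intro x
    have h1 := hg' (fun n => c n x) x (fun n => hc n x) (hcl x)
    have h2 := hg (fun n => (D n).ρ (h n)⁻¹ (c n x)) (g' x) (fun n => (A n).inv _ _ (hc n x)) h1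
    simp only [End.ρ_inv_ρ] at h2
    exact tendsto_nhds_unique h2 (hcl x)
  have hg'g : ∀ x, g' (g x) = x := by
    intro x
    have h1 := hg (fun n => c n x) x (fun n => hc n x) (hcl x)
    have h2 := hg' (fun n => (D n).ρ (h n) (c n x)) (g x) (fun n => (A n).inv _ _ (hc n x)) h1
    have h3 : ∀ n, (D n).ρ (h n)⁻¹ ((D n).ρ (h n) (c n x)) = c n x := fun n => by
      rw [← End.ρ_mul, inv_mul_cancel, End.ρ_one]
    simp only [h3] at h2
    exact tendsto_nhds_unique h2 (hcl x)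
  have hdist : ∀ x x', dist (g x) (g x') = dist x x' := by
    intro x x'
    have h1 := (hg (fun n => c n x) x (fun n => hc n x) (hcl x)).dist
      (hg (fun n => c n x') x' (fun n => hc n x') (hcl x'))
    have h2 := (hcl x).dist (hcl x')
    apply le_antisymm
    · have h3 := h2.add h2ε
      rw [add_zero] at h3
      exact le_of_tendsto_of_tendsto h1 h3
        (Eventually.of_forall fun n => (A n).equi (h n) (hc n x) (hc n x'))
    · have h3 := h1.add h2ε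
      rw [add_zero] at h3
      exact le_of_tendsto_of_tendsto h2 h3
        (Eventually.of_forall fun n => (A n).equi' (h n) (hc n x) (hc n x'))
  refine ⟨⟨⟨g, g', hg'g, hgg'⟩, Isometry.of_dist_eq hdist⟩, fun y x hy hyx => ?_⟩
  exact hg y x hy hyx

end limit

end

end Pool.Agent.Helper74.SO2
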