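import Pool.Agent.Helper74.SO2.Lim

/-! Project SO2 (MP_2d033b_gt): the main theorem. -/

namespace Pool.Agent.Helper74.SO2

open Filter Topology Set Metric Pool.Agent.Helper54.SO

noncomputable section

theorem main {E Γ : ℕ → Type*} [∀ n, NormedAddCommGroup (E n)]
    [∀ n, InnerProductSpace ℝ (E n)] [∀ n, FiniteDimensional ℝ (E n)] [∀ n, Group (Γ n)] {k T : ℝ}
    (hk : 0 < k) (D : ∀ n, Tube (E n) (Γ n) k T) (m d : ℕ) (hm : ∀ n, (D n).dim ≤ m)
    (hd : ∀ n, Module.finrank ℝ (nrm (D n).toEnd) = d)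
    {X : Type*} [MetricSpace X] [CompactSpace X]
    (ε : ℕ → ℝ) (hε : Tendsto ε atTop (𝓝 0)) (A : ∀ n, Approx (D n) X (ε n))
    (t : ℕ → ℝ) (ht : ∀ n, t n ∈ Ioo 0 T) (U : Ultrafilter ℕ) (hU : (U : Filter ℕ) ≤ atTop)
    (o x : X) (ho : Tendsto (fun n => (A n).F ((D n).γ 0)) U (𝓝 o))
    (hx : Tendsto (fun n => (A n).F ((D n).γ (t n))) U (𝓝 x)) :
    ∃ P : EuclideanSpace ℝ (Fin d) → X, ContinuousOn P (sphere 0 1) ∧
      P '' sphere 0 1 = {y | ∃ (h : ∀ n, Γ n) (g : X ≃ᵢ X), IsLimit A U h g ∧ g o = o ∧ g x = y} ∧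
      ∀ u ∈ sphere (0 : EuclideanSpace ℝ (Fin d)) 1, ∀ v ∈ sphere (0 : EuclideanSpace ℝ (Fin d)) 1,
        ∃ (a : EuclideanSpace ℝ (Fin d) ≃ₗᵢ[ℝ] EuclideanSpace ℝ (Fin d)) (h : ∀ n, Γ n)
          (g : X ≃ᵢ X), IsLimit A U h g ∧ g o = o ∧ a u = v ∧
          ∀ w ∈ sphere (0 : EuclideanSpace ℝ (Fin d)) 1, P (a w) = g (P w) := by
  classical
  have hT : 0 < T := (ht 0).1.trans (ht 0).2
  have hεU : Tendsto ε U (𝓝 0) := hε.mono_left hU
  set V := EuclideanSpace ℝ (Fin d) with hV
  set Q : ∀ n, V → X := fun n u => (A n).Q (hd n) (t n) u with hQ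
  set B : ℝ := 8 * (Real.sinh (k * T) / k) with hB
  have hB0 : 0 ≤ B := by
    have : 0 < Real.sinh (k * T) := Real.sinh_pos_iff.2 (mul_pos hk hT)
    positivity
  have hP : ∀ u : V, ∃ x, Tendsto (fun n => Q n u) U (𝓝 x) := by
    intro u
    obtain ⟨x, -, hx⟩ := (isCompact_univ (X := X)).ultrafilter_le_nhds (U.map fun n => Q n u)
      (by rw [le_principal_iff]; exact Filter.univ_mem)
    exact ⟨x, hx⟩
  choose P hP using hP
  have hlip : ∀ n, ∀ u v : V, ‖u‖ = 1 → ‖v‖ = 1 → ‖v - u‖ ≤ 1 →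
      dist (Q n u) (Q n v) ≤ B * ‖v - u‖ + ε n := fun n u v hu hv huv =>
    (A n).lip hk (hd n) (ht n) hu hv huv
  have hPlip : ∀ u v : V, ‖u‖ = 1 → ‖v‖ = 1 → ‖v - u‖ ≤ 1 → dist (P u) (P v) ≤ B * ‖v - u‖ := by
    intro u v hu hv huv
    have h1 : Tendsto (fun n => dist (Q n u) (Q n v)) U (𝓝 (dist (P u) (P v))) :=
      (hP u).dist (hP v)
    have h2 : Tendsto (fun n => B * ‖v - u‖ + ε n) U (𝓝 (B * ‖v - u‖ + 0)) := hεU.const_add _
    rw [add_zero] at h2
    exact le_of_tendsto_of_tendsto h1 h2 (Eventually.of_forall fun n => hlip n u v hu hv huv)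
  -- a sequence `u n → u` of unit vectors
  have hmove : ∀ (u : V) (v : ℕ → V), ‖u‖ = 1 → (∀ n, ‖v n‖ = 1) → Tendsto v U (𝓝 u) →
      Tendsto (fun n => dist (Q n u) (Q n (v n))) U (𝓝 0) := by
    intro u v hu hv hlim
    have h1 : Tendsto (fun n => ‖v n - u‖) U (𝓝 0) := by
      have := (hlim.sub_const u).norm
      rwa [sub_self, norm_zero] at this
    have h2 : Tendsto (fun n => B * ‖v n - u‖ + ε n) U (𝓝 0) := by
      simpa using (h1.const_mul B).add hεU
    refine squeeze_zero' (Eventually.of_forall fun n => dist_nonneg) ?_ h2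
    filter_upwards [h1.eventually (ge_mem_nhds (show (0:ℝ) < 1 by norm_num))] with n hn
    exact hlip n u (v n) hu (hv n) hn
  have hnrm : ∀ n (w : V), ‖((coord (D n).toEnd (hd n) w : nrm (D n).toEnd) : E n)‖ = ‖w‖ :=
    fun n w => (coord (D n).toEnd (hd n)).norm_map w
  have h0M : ∀ n, (D n).γ 0 ∈ (D n).M := fun n => (D n).mem 0 ⟨by linarith, hT⟩
  have htM : ∀ n, (D n).γ (t n) ∈ (D n).M := fun n =>
    (D n).mem _ ⟨by linarith [(ht n).1, (ht n).2], (ht n).2⟩
  have hfix : ∀ (h : ∀ n, Γ n) (g : X ≃ᵢ X), IsLimit A U h g →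
      (∀ n, (D n).ρ (h n) ((D n).γ 0) = (D n).γ 0) → g o = o := by
    intro h g hg hh
    have h1 := hg (fun n => (D n).γ 0) o (fun n => (A n).sub (h0M n)) ho
    simp only [hh] at h1
    exact tendsto_nhds_unique h1 ho
  refine ⟨P, ?_, ?_, ?_⟩
  · -- continuity
    rw [Metric.continuousOn_iff]
    intro u hu r hr
    refine ⟨min 1 (r / (B + 1)), lt_min one_pos (by positivity), fun v hv hvu => ?_⟩
    rw [mem_sphere_zero_iff_norm] at hu hv
    have h1 : ‖v - u‖ < min 1 (r / (B + 1)) := by rwa [← dist_eq_norm]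
    have h2 := hPlip u v hu hv (h1.le.trans (min_le_left _ _))
    rw [dist_comm]
    have h3 : ‖v - u‖ < r / (B + 1) := h1.trans_le (min_le_right _ _)
    rw [lt_div_iff₀ (by linarith)] at h3
    nlinarith [norm_nonneg (v - u)]
  · -- the image
    ext y
    constructor
    · rintro ⟨u, hu, rfl⟩
      rw [mem_sphere_zero_iff_norm] at hu
      choose h hh hhu using fun n => (D n).trans _ (coord (D n).toEnd (hd n) u).2
        (by rw [hnrm, hu])
      obtain ⟨g, hg⟩ := exists_isLimit A U hεU h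
      refine ⟨h, g, hg, hfix h g hg hh, ?_⟩
      have h2 := hg (fun n => (D n).γ (t n)) x (fun n => (A n).sub (htM n)) hx
      have h1 : ∀ n, (A n).F ((D n).ρ (h n) ((D n).γ (t n))) = Q n u := fun n => by
        rw [← pt_eq (D n) (ht n) (hh n) (hhu n)]; rfl
      simp only [h1] at h2
      exact tendsto_nhds_unique h2 (hP u)
    · rintro ⟨h, g, hg, hgo, hgx⟩
      have hh : Tendsto (fun n => (A n).F ((D n).ρ (h n) ((D n).γ 0))) U (𝓝 o) := by
        have h1 := hg (fun n => (D n).γ 0) o (fun n => (A n).sub (h0M n)) ho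
        rwa [hgo] at h1
      have hy : Tendsto (fun n => (A n).F ((D n).ρ (h n) ((D n).γ (t n)))) U (𝓝 y) := by
        have h1 := hg (fun n => (D n).γ (t n)) x (fun n => (A n).sub (htM n)) hx
        rwa [hgx] at h1
      set b : ℕ → ℝ := fun n => dist ((A n).F ((D n).γ 0)) ((A n).F ((D n).ρ (h n) ((D n).γ 0))) + ε n
        with hb
      have hb0 : Tendsto b U (𝓝 0) := by
        have h1 := (ho.dist hh).add hεU
        rwa [dist_self, add_zero] at h1
      have hδU : Tendsto (fun n : ℕ => 1 / ((n:ℝ) + 1)) U (𝓝 0) :=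
        tendsto_one_div_add_atTop_nhds_zero_nat.mono_left hU
      have key : ∀ n, ∃ l : Γ n, (D n).ρ l ((D n).γ 0) = (D n).γ 0 ∧ (b n < T →
          JoinLe ((D n).orb ((D n).γ (t n))) (((D n).dim : ℝ) * Real.cosh (k * T) *
            (3 * Real.cosh (k * T / 2) * b n) + 1 / ((n:ℝ) + 1)) ((D n).ρ l ((D n).γ (t n)))
            ((D n).ρ (h n) ((D n).γ (t n)))) := by
        intro n
        by_cases hn : b n < T
        · obtain ⟨l, hl, hJ⟩ := core (D n) hk (ht n) (h n) ((A n).inner (h n) _ hn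
            ((A n).lower _ ((A n).sub (h0M n)) _ ((A n).sub ((D n).inv _ _ (h0M n)))))
            (show (0:ℝ) < 1 / ((n:ℝ) + 1) by positivity)
          exact ⟨l, hl, fun _ => hJ⟩
        · exact ⟨1, (D n).ρ_one _, fun h => absurd h hn⟩
      choose l hl hJ using key
      set C : ℝ := (m : ℝ) * Real.cosh (k * T) * (3 * Real.cosh (k * T / 2)) with hC
      have hbd : ∀ᶠ n in (U : Filter ℕ), dist ((A n).F ((D n).ρ (l n) ((D n).γ (t n))))
            ((A n).F ((D n).ρ (h n) ((D n).γ (t n)))) ≤ C * b n + 1 / ((n:ℝ) + 1) + ε n := by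
        filter_upwards [hb0.eventually (gt_mem_nhds hT)] with n hn
        have h1 := hJ n hn
        have h2 := (A n).upper _ _ ((A n).sub ((D n).inv _ _ (htM n))) _
          ((A n).sub ((D n).inv _ _ (htM n)))
          (joinLe_sub h1 ((Approx.orb_sub (D n) (ht n)).trans (A n).sub))
        have ha1 : 0 ≤ b n := ((A n).lower _ ((A n).sub (h0M n)) _
          ((A n).sub ((D n).inv _ _ (h0M n)))).1
        have h3 : ((D n).dim : ℝ) * Real.cosh (k * T) * (3 * Real.cosh (k * T / 2) * b n) ≤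
            C * b n := by
          have h4 : ((D n).dim : ℝ) ≤ m := by exact_mod_cast hm n
          have h5 : 0 ≤ Real.cosh (k * T) * (3 * Real.cosh (k * T / 2) * b n) := by
            have := Real.cosh_pos (k * T); have := Real.cosh_pos (k * T / 2); positivity
          calc _ = ((D n).dim : ℝ) * (Real.cosh (k * T) * (3 * Real.cosh (k * T / 2) * b n)) := by
                ring
            _ ≤ m * (Real.cosh (k * T) * (3 * Real.cosh (k * T / 2) * b n)) :=
              mul_le_mul_of_nonneg_right h4 h5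
            _ = _ := by rw [hC]; ring
        linarith
      have hlim : Tendsto (fun n => C * b n + 1 / ((n:ℝ) + 1) + ε n) U (𝓝 0) := by
        simpa using ((hb0.const_mul C).add hδU).add hεU
      have hd0 : Tendsto (fun n => dist ((A n).F ((D n).ρ (l n) ((D n).γ (t n))))
            ((A n).F ((D n).ρ (h n) ((D n).γ (t n))))) U (𝓝 0) :=
        squeeze_zero' (Eventually.of_forall fun n => dist_nonneg) hbd hlim
      -- the initial vectors
      set v : ∀ n, nrm (D n).toEnd := fun n =>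
        ⟨(D n).ρ (l n) (deriv (D n).γ 0), map_nrm _ (hl n) (deriv_mem_nrm _ hT)⟩ with hv
      set u : ℕ → V := fun n => (coord (D n).toEnd (hd n)).symm (v n) with hu
      have hu1 : ∀ n, ‖u n‖ = 1 := by
        intro n
        simp only [hu]
        rw [LinearIsometryEquiv.norm_map]
        change ‖(D n).ρ (l n) (deriv (D n).γ 0)‖ = 1
        rw [LinearIsometryEquiv.norm_map, (D n).unit 0 ⟨by linarith, hT⟩]
      have hQu : ∀ n, Q n (u n) = (A n).F ((D n).ρ (l n) ((D n).γ (t n))) := by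
        intro n
        change (A n).F (pt (D n) (t n) (coord (D n).toEnd (hd n) (u n) : nrm (D n).toEnd)) = _
        have h1 : coord (D n).toEnd (hd n) (u n) = v n := LinearIsometryEquiv.apply_symm_apply _ _
        rw [h1, pt_eq (D n) (ht n) (hl n) rfl]
      obtain ⟨u₀, hu₀, hu₀lim⟩ := (isCompact_sphere (0 : V) 1).ultrafilter_le_nhds (U.map u)
        (by
          rw [le_principal_iff]
          exact Filter.mem_map.2 (Filter.univ_mem' fun n => by
            change u n ∈ sphere (0 : V) 1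
            rw [mem_sphere_zero_iff_norm]; exact hu1 n))
      refine ⟨u₀, hu₀, ?_⟩
      rw [mem_sphere_zero_iff_norm] at hu₀
      have hmv := hmove u₀ u hu₀ hu1 hu₀lim
      -- `Q n u₀ → y`
      have hfin : Tendsto (fun n => Q n u₀) U (𝓝 y) := by
        rw [tendsto_iff_dist_tendsto_zero] at hy ⊢
        refine squeeze_zero (fun n => dist_nonneg) (fun n => ?_)
          (by simpa using (hmv.add hd0).add hy)
        calc dist (Q n u₀) y ≤ dist (Q n u₀) ((A n).F ((D n).ρ (h n) ((D n).γ (t n)))) +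
              dist ((A n).F ((D n).ρ (h n) ((D n).γ (t n)))) y := dist_triangle _ _ _
          _ ≤ dist (Q n u₀) (Q n (u n)) + dist (Q n (u n))
              ((A n).F ((D n).ρ (h n) ((D n).γ (t n)))) +
              dist ((A n).F ((D n).ρ (h n) ((D n).γ (t n)))) y :=
                add_le_add_left (dist_triangle _ _ _) _
          _ = _ := by rw [hQu]
      exact tendsto_nhds_unique (hP u₀) hfin
  · -- transitivity and equivariance
    intro u hu v hv
    rw [mem_sphere_zero_iff_norm] at hu hv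
    have hl : ∀ n, ∃ l : Γ n, (D n).ρ l ((D n).γ 0) = (D n).γ 0 ∧
        (D n).ρ l (coord (D n).toEnd (hd n) u : nrm (D n).toEnd) =
          (coord (D n).toEnd (hd n) v : nrm (D n).toEnd) := by
      intro n
      obtain ⟨g, hg, hgu⟩ := (D n).trans _ (coord (D n).toEnd (hd n) u).2 (by rw [hnrm, hu])
      obtain ⟨g', hg', hgv⟩ := (D n).trans _ (coord (D n).toEnd (hd n) v).2 (by rw [hnrm, hv])
      refine ⟨g' * g⁻¹, mul_fix (D n).toEnd hg' (inv_fix (D n).toEnd hg), ?_⟩
      rw [← hgu, ← hgv, ← End.ρ_mul, inv_mul_cancel_right]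
    choose l hl0 hluv using hl
    obtain ⟨a, ha⟩ := exists_lim_isom U fun n => act (D n).toEnd (hd n) (l n) (hl0 n)
    obtain ⟨g, hg⟩ := exists_isLimit A U hεU l
    refine ⟨a, l, g, hg, hfix l g hg hl0, ?_, ?_⟩
    · have h1 : ∀ n, act (D n).toEnd (hd n) (l n) (hl0 n) u = v := by
        intro n
        apply (coord (D n).toEnd (hd n)).injective
        apply Subtype.ext
        rw [coord_act, hluv]
      have h2 := ha u
      simp only [h1] at h2
      exact (tendsto_nhds_unique h2 tendsto_const_nhds)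
    · intro w hw
      rw [mem_sphere_zero_iff_norm] at hw
      -- the points `Q n (a_n w)` converge to `P (a w)`
      have h1 : Tendsto (fun n => Q n (act (D n).toEnd (hd n) (l n) (hl0 n) w)) U
          (𝓝 (P (a w))) := by
        have h2 := hmove (a w) (fun n => act (D n).toEnd (hd n) (l n) (hl0 n) w)
          (by rw [LinearIsometryEquiv.norm_map, hw]) (fun n => by rw [LinearIsometry.norm_map, hw])
          (ha w)
        have h3 := hP (a w)
        rw [tendsto_iff_dist_tendsto_zero] at h3 ⊢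
        refine squeeze_zero (fun n => dist_nonneg) (fun n => ?_) (by simpa using h2.add h3)
        calc dist (Q n (act (D n).toEnd (hd n) (l n) (hl0 n) w)) (P (a w)) ≤
            dist (Q n (act (D n).toEnd (hd n) (l n) (hl0 n) w)) (Q n (a w)) +
              dist (Q n (a w)) (P (a w)) := dist_triangle _ _ _
          _ = dist (Q n (a w)) (Q n (act (D n).toEnd (hd n) (l n) (hl0 n) w)) +
              dist (Q n (a w)) (P (a w)) := by
            rw [dist_comm (Q n (act (D n).toEnd (hd n) (l n) (hl0 n) w)) (Q n (a w))]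
      have h2 := hg (fun n => pt (D n) (t n) (coord (D n).toEnd (hd n) w : nrm (D n).toEnd)) (P w)
        (fun n => (A n).sub (pt_mem (D n) (ht n) _)) (hP w)
      have h3 : ∀ n, Q n (act (D n).toEnd (hd n) (l n) (hl0 n) w) =
          (A n).F ((D n).ρ (l n) (pt (D n) (t n)
            (coord (D n).toEnd (hd n) w : nrm (D n).toEnd))) := fun n =>
        (A n).Q_act (hd n) (ht n) (l n) (hl0 n) hw
      simp only [h3] at h1
      exact tendsto_nhds_unique h1 h2

end

end Pool.Agent.Helper74.SO2
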