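import Pool.Agent.Helper74.SO2.Creep

/-! Project SO2 (MP_2d033b_gt): a path in the half tube from `p` to `g p` gives a broken path in the
orbit of `p`. -/

namespace Pool.Agent.Helper74.SO2

open Filter Topology Set Pool.Agent.Helper54.SO
open scoped ContDiff

noncomputable section

section
variable {E : Type*} [NormedAddCommGroup E] [InnerProductSpace ℝ E] [FiniteDimensional ℝ E]
  {Γ : Type*} [Group Γ] {k T : ℝ}

theorem half_sub (D : Tube E Γ k T) (hT : 0 < T) : D.half ⊆ D.M := by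
  rintro y ⟨g, t, ht, rfl⟩
  have h1 := abs_le.1 ht
  exact D.inv g _ (D.mem t ⟨by linarith [h1.1], by linarith [h1.2]⟩)

/-- the property which is propagated along the path -/
def Reach (D : Tube E Γ k T) (K : ℝ) (c : ℝ → E) (s : ℝ) : Prop :=
  ∃ (h : Γ) (b : ℝ), D.Broken h b ∧ b ≤ K * s ∧ ∃ l : Γ, D.ρ l (D.γ 0) = D.γ 0 ∧
    ∃ t ∈ Ioo (-T) T, c s = D.ρ h (D.ρ l (D.γ t))

theorem reach_local (D : Tube E Γ k T) (hk : 0 < k) (hT : 0 < T) {a : ℝ} {c : ℝ → E}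
    (hc : LipschitzOnWith 1 c (Icc 0 a)) (hS : ∀ s ∈ Icc 0 a, c s ∈ D.half) {s₀ : ℝ}
    (hs₀ : s₀ ∈ Icc 0 a) : ∃ η > 0, ∀ s ∈ Icc 0 a, |s - s₀| < η →
      (s₀ ≤ s → Reach D (3 * Real.cosh (k * T / 2)) c s₀ →
        Reach D (3 * Real.cosh (k * T / 2)) c s) ∧
      (s ≤ s₀ → Reach D (3 * Real.cosh (k * T / 2)) c s →
        Reach D (3 * Real.cosh (k * T / 2)) c s₀) := by
  set K : ℝ := 3 * Real.cosh (k * T / 2) with hK
  have hK0 : 0 ≤ K := by have := Real.cosh_pos (k * T / 2); positivity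
  obtain ⟨h', t', ht', hc0⟩ := hS s₀ hs₀
  have ht'T : t' ∈ Ioo (-T) T := by
    have := abs_le.1 ht'
    constructor <;> linarith [this.1, this.2]
  -- the path moved to the normal geodesic
  have htend : Tendsto (fun s => D.ρ h'⁻¹ (c s)) (𝓝[Icc 0 a] s₀) (𝓝[D.M] (D.γ t')) := by
    rw [tendsto_nhdsWithin_iff]
    constructor
    · have h1 : ContinuousWithinAt c (Icc 0 a) s₀ := hc.continuousOn s₀ hs₀
      have h2 : Tendsto (fun s => D.ρ h'⁻¹ (c s)) (𝓝[Icc 0 a] s₀) (𝓝 (D.ρ h'⁻¹ (c s₀))) :=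
        ((D.ρ h'⁻¹).continuous.tendsto _).comp h1
      have h3 : D.ρ h'⁻¹ (c s₀) = D.γ t' := by
        rw [hc0, ← D.ρ_mul, inv_mul_cancel, D.ρ_one]
      rwa [h3] at h2
    · filter_upwards [self_mem_nhdsWithin] with s hs
      exact D.inv _ _ (half_sub D hT (hS s hs))
  have hev := htend.eventually (local_le D hk hT ht')
  obtain ⟨η, hη, hball⟩ := Metric.mem_nhdsWithin_iff.1 hev
  refine ⟨η, hη, fun s hs hss => ?_⟩
  have hs' : s ∈ Metric.ball s₀ η ∩ Icc 0 a := ⟨by rwa [Metric.mem_ball, Real.dist_eq], hs⟩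
  obtain ⟨A, hA, l, hl, s', hs'T, hy, hAn⟩ := hball hs'
  have hy' : D.ρ h'⁻¹ (c s) = NormedSpace.exp A (D.ρ l (D.γ s')) := hy
  have hdist : ‖D.ρ h'⁻¹ (c s) - D.γ t'‖ ≤ |s - s₀| := by
    have h1 : D.γ t' = D.ρ h'⁻¹ (c s₀) := by
      rw [hc0, ← D.ρ_mul, inv_mul_cancel, D.ρ_one]
    rw [h1, ← map_sub, LinearIsometryEquiv.norm_map, ← dist_eq_norm]
    have h2 := hc.dist_le_mul s hs s₀ hs₀
    rwa [NNReal.coe_one, one_mul, Real.dist_eq] at h2
  have hAn' : ‖A (D.γ 0)‖ ≤ K * |s - s₀| :=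
    hAn.trans (mul_le_mul_of_nonneg_left hdist hK0)
  obtain ⟨e, he⟩ := D.exp A hA
  have hcs : c s = D.ρ (h' * e * l) (D.γ s') := by
    rw [D.ρ_mul, D.ρ_mul, he, ← hy', ← D.ρ_mul, mul_inv_cancel, D.ρ_one]
  constructor
  · intro hle hP
    obtain ⟨h, b, hb, hbK, l₀, hl₀, t₀, ht₀, hct⟩ := hP
    set m : Γ := h⁻¹ * h' with hm
    have h1 : D.ρ (h'⁻¹ * h * l₀) (D.γ t₀) = D.γ t' := by
      rw [D.ρ_mul, D.ρ_mul, ← hct, hc0, ← D.ρ_mul, inv_mul_cancel, D.ρ_one]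
    have h2 := (D.foot _ t₀ ht₀ t' ht'T h1).1
    have hmf : D.ρ m (D.γ 0) = D.γ 0 := by
      have h3 : D.ρ (h'⁻¹ * h) (D.γ 0) = D.γ 0 := by
        rw [D.ρ_mul _ l₀, hl₀] at h2; exact h2
      have h4 := inv_fix D.toEnd h3
      rwa [mul_inv_rev, inv_inv] at h4
    refine ⟨h * (m * e * m⁻¹), b + ‖A (D.γ 0)‖, broken_ext D.toEnd hA he hb hmf, ?_, m * l,
      mul_fix D.toEnd hmf hl, s', hs'T, ?_⟩
    · rw [abs_of_nonneg (by linarith)] at hAn'
      calc b + ‖A (D.γ 0)‖ ≤ K * s₀ + K * (s - s₀) := add_le_add hbK hAn'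
        _ = K * s := by ring
    · rw [hcs, ← D.ρ_mul]
      congr 2
      rw [hm]; group
  · intro hle hP
    obtain ⟨h, b, hb, hbK, l₀, hl₀, t₀, ht₀, hct⟩ := hP
    set m : Γ := h⁻¹ * h' * e with hm
    have h1 : D.ρ ((h' * e * l)⁻¹ * h * l₀) (D.γ t₀) = D.γ s' := by
      rw [D.ρ_mul, D.ρ_mul, ← hct, hcs, ← D.ρ_mul, inv_mul_cancel, D.ρ_one]
    have h2 := (D.foot _ t₀ ht₀ s' hs'T h1).1
    have hmf : D.ρ m (D.γ 0) = D.γ 0 := by
      have h3 : D.ρ ((h' * e * l)⁻¹ * h) (D.γ 0) = D.γ 0 := by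
        rw [D.ρ_mul _ l₀, hl₀] at h2; exact h2
      have h4 := inv_fix D.toEnd h3
      rw [mul_inv_rev, inv_inv] at h4
      have h5 : m = h⁻¹ * (h' * e * l) * l⁻¹ := by rw [hm]; group
      rw [h5]
      exact mul_fix D.toEnd h4 (inv_fix D.toEnd hl)
    have he' : ∀ x, D.ρ e⁻¹ x = NormedSpace.exp (-A) x := by
      intro x
      obtain ⟨e₂, he₂⟩ := D.exp (-A) (D.𝔤.neg_mem hA)
      have h6 : D.ρ (e * e₂) x = x := by
        rw [D.ρ_mul, he, he₂]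
        have : CompleteSpace E := FiniteDimensional.complete ℝ E
        let _ : NormedAlgebra ℚ (E →L[ℝ] E) := NormedAlgebra.restrictScalars ℚ ℝ _
        have h7 : NormedSpace.exp A * NormedSpace.exp (-A) = 1 := by
          rw [← NormedSpace.exp_add_of_commute (Commute.neg_right (Commute.refl A)), add_neg_cancel,
            NormedSpace.exp_zero]
        exact DFunLike.congr_fun h7 x
      rw [← he₂]
      conv_lhs => rw [← h6]
      rw [← D.ρ_mul, inv_mul_cancel_left]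
    have hbr := broken_ext D.toEnd (e := e⁻¹) (D.𝔤.neg_mem hA) he' hb hmf
    have hneg : ‖(-A) (D.γ 0)‖ = ‖A (D.γ 0)‖ := by rw [neg_apply, norm_neg]
    rw [hneg] at hbr
    refine ⟨_, _, hbr, ?_, m, hmf, t', ht'T, ?_⟩
    · rw [abs_of_nonpos (by linarith)] at hAn'
      calc b + ‖A (D.γ 0)‖ ≤ K * s + K * -(s - s₀) := add_le_add hbK hAn'
        _ = K * s₀ := by ring
    · rw [hc0, ← D.ρ_mul]
      congr 2
      rw [hm]; group

/-- From extrinsic to intrinsic: if `g p` can be joined to `p` in the half tube by a path of length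
at most `a`, then `g p` is the end point of a broken path in the orbit, of length at most
`3 cosh (k T / 2) a`. -/
theorem broken_of_join (D : Tube E Γ k T) (hk : 0 < k) (hT : 0 < T) {g : Γ} {a : ℝ}
    (h : JoinLe D.half a (D.γ 0) (D.ρ g (D.γ 0))) :
    ∃ (l : Γ) (b : ℝ), D.ρ l (D.γ 0) = D.γ 0 ∧ D.Broken (g * l) b ∧
      b ≤ 3 * Real.cosh (k * T / 2) * a := by
  obtain ⟨ha, c, hc, hS, hc0, hca⟩ := h
  have h0T : (0:ℝ) ∈ Ioo (-T) T := ⟨by linarith, hT⟩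
  have hR : Reach D (3 * Real.cosh (k * T / 2)) c a := by
    refine creep ha _ ?_ fun s₀ hs₀ => reach_local D hk hT hc hS hs₀
    exact ⟨1, 0, End.Broken.one, by rw [mul_zero], 1, D.ρ_one _, 0, h0T, by
      rw [D.ρ_one, D.ρ_one, hc0]⟩
  obtain ⟨h, b, hb, hbK, l, hl, t, ht, hct⟩ := hR
  have h1 : D.ρ (g⁻¹ * h * l) (D.γ t) = D.γ 0 := by
    rw [D.ρ_mul, D.ρ_mul, ← hct, hca, ← D.ρ_mul, inv_mul_cancel, D.ρ_one]
  have h2 := (D.foot _ t ht 0 h0T h1).1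
  rw [D.ρ_mul _ l, hl] at h2
  refine ⟨g⁻¹ * h, b, h2, ?_, hbK⟩
  rwa [mul_inv_cancel_left]

end

end

end Pool.Agent.Helper74.SO2
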