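import Pool.Agent.Helper54.SO.M

/-! Project SO2 (MP_2d033b_gt): upper bound for the Killing fields of the isotropy algebra. -/

namespace Pool.Agent.Helper74.SO2

open Filter Topology Set Pool.Agent.Helper54.SO

noncomputable section

/-- minimum principle on `[a, b]`: a nonnegative function with `y'' ≤ k² y` in the barrier sense lies
above the solution of `w'' = k² w` which vanishes at `a` and is equal to `y` at `b`. -/
theorem comp_above {k : ℝ} (hk : 0 < k) (y : ℝ → ℝ) {a b : ℝ} (hab : a < b)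
    (hlsc : LowerSemicontinuousOn y (Icc a b)) (hb : ∀ t ∈ Ioo a b, Barrier k y t)
    (hpos : ∀ t ∈ Icc a b, 0 ≤ y t) {t : ℝ} (ht : t ∈ Icc a b) :
    y b * Real.sinh (k * (t - a)) ≤ y t * Real.sinh (k * (b - a)) := by
  have hs0 : 0 < Real.sinh (k * (b - a)) := Real.sinh_pos_iff.2 (mul_pos hk (by linarith))
  set c : ℝ := y b / Real.sinh (k * (b - a)) with hc
  have hcs : c * Real.sinh (k * (b - a)) = y b := by rw [hc]; field_simp
  set u : ℝ → ℝ := fun t => c * Real.sinh (k * (t - a)) with hu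
  set u' : ℝ → ℝ := fun t => c * (Real.cosh (k * (t - a)) * k) with hu'
  have hmul : ∀ t, HasDerivAt (fun t => k * (t - a)) k t := fun t => by
    simpa using ((hasDerivAt_id t).sub_const a).const_mul k
  have hud : ∀ t, HasDerivAt u (u' t) t := fun t =>
    ((Real.hasDerivAt_sinh (k * (t - a))).comp t (hmul t)).const_mul _
  have hudd : ∀ t, HasDerivAt u' (k ^ 2 * u t) t := fun t => by
    have := (((Real.hasDerivAt_cosh (k * (t - a))).comp t (hmul t)).mul_const k).const_mul c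
    have h2 : k ^ 2 * u t = c * (Real.sinh (k * (t - a)) * k * k) := by
      simp only [hu]; ring
    rw [h2]; exact this
  have hucont : Continuous u := continuous_iff_continuousAt.2 fun t => (hud t).continuousAt
  have hub : u b = y b := by simp only [hu]; exact hcs
  have hua : u a = 0 := by simp [hu]
  suffices h : u t ≤ y t by
    have h1 := mul_le_mul_of_nonneg_right h hs0.le
    have h2 : u t * Real.sinh (k * (b - a)) = y b * Real.sinh (k * (t - a)) := by
      simp only [hu]; rw [← hcs]; ring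
    rwa [h2] at h1
  by_contra hcon
  push Not at hcon
  set φ : ℝ → ℝ := fun t => y t + -(u t) with hφ
  have hφlsc : LowerSemicontinuousOn φ (Icc a b) :=
    hlsc.add (hucont.neg.lowerSemicontinuous.lowerSemicontinuousOn _)
  obtain ⟨s, hs, hsmin⟩ := hφlsc.exists_isMinOn (nonempty_Icc.2 hab.le) isCompact_Icc
  have hsneg : φ s < 0 := lt_of_le_of_lt (hsmin ht) (by simp only [hφ]; linarith)
  have hsa : s ≠ a := by
    rintro rfl
    have h1 := hpos s ⟨le_rfl, hab.le⟩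
    simp only [hφ] at hsneg
    rw [hua] at hsneg
    linarith
  have hsb : s ≠ b := by
    rintro rfl
    have : φ s = 0 := by simp only [hφ]; rw [hub]; ring
    linarith
  have hsI : s ∈ Ioo a b := ⟨lt_of_le_of_ne hs.1 (Ne.symm hsa), lt_of_le_of_ne hs.2 hsb⟩
  obtain ⟨z, z', z'', hz1, hz2, hz3, hz4, hz5⟩ := hb s hsI
  refine no_min (f := fun t => z t - u t) (f' := fun t => z' t - u' t) (f'' := z'' - k ^ 2 * u s)
    (s := s) ?_ ?_ ?_ ?_
  · filter_upwards [hz1, Ioo_mem_nhds hsI.1 hsI.2] with t ht htI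
    have h1 : φ s ≤ φ t := hsmin (show t ∈ Icc a b from ⟨htI.1.le, htI.2.le⟩)
    simp only [hφ] at h1
    rw [hz2]
    linarith
  · filter_upwards [hz3] with t ht
    exact ht.sub (hud t)
  · exact hz4.sub (hudd s)
  · have : k ^ 2 * (y s - u s) < 0 := by
      apply mul_neg_of_pos_of_neg (by positivity)
      simp only [hφ] at hsneg; linarith
    nlinarith

section
variable {V E : Type*} [NormedAddCommGroup V] [NormedSpace ℝ V] [FiniteDimensional ℝ V]
    [NormedAddCommGroup E] [InnerProductSpace ℝ E] [FiniteDimensional ℝ E] {k T : ℝ}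

/-- lower semicontinuity at positive times, for linear forms which vanish on the trivial fields -/
theorem lsc_pos (D : JF V E k T) (ξ : V →ₗ[ℝ] ℝ)
    (hξ : ∀ A, (∀ s ∈ Ioo (-T) T, D.J s A = 0) → ξ A = 0) {t : ℝ} (ht : t ∈ Ioo 0 T) {δ : ℝ}
    (hδ0 : 0 < δ) : ∀ᶠ s in 𝓝 t, ∀ A, ∃ B, ξ B = ξ A ∧ (1 - δ) * ‖D.J t B‖ ≤ ‖D.J s A‖ := by
  have htT : t ∈ Ioo (-T) T := ⟨by linarith [ht.1, ht.2], ht.2⟩
  obtain ⟨c, hc, hsec⟩ := exists_section (⊤ : Submodule ℝ V) (D.J t)
  have hcont : ∀ᶠ s in 𝓝 t, ‖D.J s - D.J t‖ < c * δ := by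
    have h1 := (D.d0 t htT).continuousAt
    have h2 : Tendsto (fun s => ‖D.J s - D.J t‖) (𝓝 t) (𝓝 0) := by
      have := (h1.sub (continuousAt_const (y := D.J t))).norm
      simpa [ContinuousAt] using this
    exact h2.eventually (gt_mem_nhds (by positivity))
  have hin : ∀ᶠ s in 𝓝 t, s ∈ Ioo (-T) T := Ioo_mem_nhds htT.1 htT.2
  filter_upwards [hcont.and hin] with s hs A
  obtain ⟨hs1, hs2⟩ := hs
  obtain ⟨B, -, hB1, hB2⟩ := hsec A trivial
  have hdiff : ∀ r ∈ Ioo (-T) T, D.J r (A - B) = 0 := by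
    apply D.ker t ht
    rw [map_sub, hB1, sub_self]
  refine ⟨B, ?_, ?_⟩
  · have := hξ (A - B) hdiff
    rw [map_sub] at this
    linarith
  have h1 : D.J s A = D.J s B := by
    have := hdiff s hs2
    rw [map_sub] at this
    exact sub_eq_zero.1 this
  rw [h1]
  have h2 : ‖D.J t B‖ ≤ ‖D.J s B‖ + ‖(D.J s - D.J t) B‖ := by
    have := norm_sub_le (D.J s B) ((D.J s - D.J t) B)
    simpa using this
  have h3 := (D.J s - D.J t).le_opNorm B
  have h4 : ‖D.J s - D.J t‖ * ‖B‖ ≤ c * δ * ‖B‖ :=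
    mul_le_mul_of_nonneg_right hs1.le (norm_nonneg _)
  nlinarith

/-- the quotient `‖J A‖ / sinh (k t)` does not increase (positive times) -/
theorem rauch' (D : JF V E k T) (hk : 0 < k) (A : V) {a s t : ℝ} (ha : 0 < a) (has : a ≤ s)
    (hst : s < t) (htT : t < T) :
    ‖D.J t A‖ * Real.sinh (k * (s - a)) ≤ ‖D.J s A‖ * Real.sinh (k * (t - a)) := by
  have h0T : (0:ℝ) ∈ Ioo (-T) T := ⟨by linarith, by linarith⟩
  have htI : t ∈ Ioo 0 T := ⟨by linarith, htT⟩
  have hs0 : 0 < Real.sinh (k * (t - a)) := Real.sinh_pos_iff.2 (mul_pos hk (by linarith))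
  by_cases hA : D.J t A = 0
  · rw [hA, norm_zero, zero_mul]; exact mul_nonneg (norm_nonneg _) hs0.le
  set n := ‖D.J t A‖ with hn
  have hn0 : 0 < n := norm_pos_iff.2 hA
  set ξ : V →ₗ[ℝ] ℝ := (1 / n ^ 2) • ((innerₛₗ ℝ (D.J t A)) ∘ₗ (D.J t).toLinearMap) with hξ
  have hξa : ∀ B, ξ B = 1 / n ^ 2 * inner ℝ (D.J t A) (D.J t B) := fun B => rfl
  have h1 : ξ A = 1 := by
    rw [hξa, real_inner_self_eq_norm_sq, ← hn]; field_simp
  have h2 : ∀ B, ξ B = 0 → inner ℝ (D.J t A) (D.J t B) = 0 := by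
    intro B hB
    rw [hξa] at hB
    rcases mul_eq_zero.1 hB with h | h
    · exfalso; have : 0 < 1 / n ^ 2 := by positivity
      linarith
    · exact h
  have h3 : ∀ B, D.J t B = 0 → ξ B = 0 := by
    intro B hB
    rw [hξa, hB, inner_zero_right, mul_zero]
  choose M hM1 hM2 using D.exists_min ξ A h1
  set y : ℝ → ℝ := fun s => ‖D.J s (M s)‖ with hy
  have hyle : ∀ s B, ξ B = 1 → y s ≤ ‖D.J s B‖ := fun s B hB => D.min_le ξ (hM1 s) (hM2 s) hB
  have hyt : y t = n := le_antisymm (hyle t A h1) (D.min_le ξ h1 h2 (hM1 t))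
  have hne : ∀ s ∈ Ioo 0 T, ∀ B, ξ B = 1 → D.J s B ≠ 0 := by
    intro s hs B hB h
    have h3' := h3 B (D.ker s hs B h t ⟨by linarith, htT⟩)
    linarith
  have hpos : ∀ s ∈ Ioo 0 T, 0 < y s := fun s hs => norm_pos_iff.2 (hne s hs _ (hM1 s))
  have hlsc : LowerSemicontinuousOn y (Icc a t) := by
    intro s hs c hc
    have hsI : s ∈ Ioo 0 T := ⟨by linarith [hs.1], by linarith [hs.2]⟩
    have hys := hpos s hsI
    set δ : ℝ := min (1 / 2) ((y s - c) / (2 * y s)) with hδ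
    have hc' : c < y s := hc
    have hδ0 : 0 < δ := lt_min (by norm_num) (div_pos (by linarith) (by linarith))
    have hδ2 : δ * y s ≤ (y s - c) / 2 := by
      have h3 : δ ≤ (y s - c) / (2 * y s) := min_le_right _ _
      have h4 := mul_le_mul_of_nonneg_right h3 hys.le
      have h5 : (y s - c) / (2 * y s) * y s = (y s - c) / 2 := by field_simp
      rwa [h5] at h4
    have hδ1 : δ < 1 := (min_le_left _ _).trans_lt (by norm_num)
    have hξ' : ∀ A, (∀ s ∈ Ioo (-T) T, D.J s A = 0) → ξ A = 0 := fun A hA =>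
      h3 A (hA t ⟨by linarith, htT⟩)
    filter_upwards [nhdsWithin_le_nhds (lsc_pos D ξ hξ' hsI hδ0)] with r hr
    obtain ⟨B, hB1, hB2⟩ := hr (M r)
    rw [hM1] at hB1
    have h3 := hyle s B hB1
    have h4 : (1 - δ) * y s ≤ (1 - δ) * ‖D.J s B‖ := mul_le_mul_of_nonneg_left h3 (by linarith)
    have h5 : (1 - δ) * ‖D.J s B‖ ≤ y r := hB2
    nlinarith
  have hbarr : ∀ s ∈ Ioo a t, Barrier k y s := by
    intro s hs
    have hsI : s ∈ Ioo 0 T := ⟨by linarith [hs.1], by linarith [hs.2]⟩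
    obtain ⟨z, z', z'', hz1, hz2, hz3, hz4, hz5⟩ := D.stmtB ξ s hsI (M s) (hM1 s) (hM2 s)
      (hne s hsI _ (hM1 s))
    refine ⟨z, z', z'', ?_, hz2, hz3, hz4, hz5⟩
    filter_upwards with r
    obtain ⟨B, hB1, hB2⟩ := hz1 r
    rw [hB2]
    exact hyle r B hB1
  have h4 := comp_above hk y (lt_of_le_of_lt has hst) hlsc hbarr
    (fun s hs => (hpos s ⟨by linarith [hs.1], by linarith [hs.2]⟩).le) ⟨has, hst.le⟩
  rw [hyt] at h4
  exact h4.trans (mul_le_mul_of_nonneg_right (hyle s A h1) hs0.le)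

/-- upper bound for the fields which vanish at `0` -/
theorem rauch (D : JF V E k T) (hk : 0 < k) (A : V) (hA : D.J 0 A = 0) {t : ℝ} (ht : t ∈ Ioo 0 T) :
    ‖D.J t A‖ ≤ Real.sinh (k * t) / k * ‖D.J1 0 A‖ := by
  have hT : 0 < T := ht.1.trans ht.2
  have h0T : (0:ℝ) ∈ Ioo (-T) T := ⟨by linarith, hT⟩
  -- `a → 0`
  have h1 : ∀ s ∈ Ioo 0 t, ‖D.J t A‖ * Real.sinh (k * s) ≤ ‖D.J s A‖ * Real.sinh (k * t) := by
    intro s hs
    have hl : Tendsto (fun a : ℝ => ‖D.J t A‖ * Real.sinh (k * (s - a))) (𝓝[>] 0)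
        (𝓝 (‖D.J t A‖ * Real.sinh (k * (s - 0)))) := by
      apply Tendsto.mono_left _ nhdsWithin_le_nhds
      apply Continuous.tendsto
      fun_prop
    have hr : Tendsto (fun a : ℝ => ‖D.J s A‖ * Real.sinh (k * (t - a))) (𝓝[>] 0)
        (𝓝 (‖D.J s A‖ * Real.sinh (k * (t - 0)))) := by
      apply Tendsto.mono_left _ nhdsWithin_le_nhds
      apply Continuous.tendsto
      fun_prop
    rw [sub_zero] at hl hr
    refine le_of_tendsto_of_tendsto hl hr ?_
    filter_upwards [Ioo_mem_nhdsGT hs.1] with a ha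
    exact rauch' D hk A ha.1 ha.2.le hs.2 ht.2
  -- divide by `s` and let `s → 0`
  have hJ : HasDerivAt (fun s => D.J s A) (D.J1 0 A) 0 := by
    simpa using (D.d0 0 h0T).clm_apply (hasDerivAt_const (0:ℝ) A)
  have hlim1 : Tendsto (fun s : ℝ => s⁻¹ * ‖D.J s A‖) (𝓝[>] 0) (𝓝 ‖D.J1 0 A‖) := by
    have h2 := (hJ.tendsto_slope_zero_right).norm
    refine h2.congr' ?_
    filter_upwards [self_mem_nhdsWithin] with s hs
    have hs0 : (0:ℝ) < s := hs
    rw [zero_add, hA, sub_zero, norm_smul, norm_inv, Real.norm_of_nonneg hs0.le]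
  have hlim2 : Tendsto (fun s : ℝ => s⁻¹ * Real.sinh (k * s)) (𝓝[>] 0) (𝓝 k) := by
    have h2 : HasDerivAt (fun s : ℝ => Real.sinh (k * s)) (Real.cosh (k * 0) * k) 0 := by
      have h3 : HasDerivAt (fun s : ℝ => k * s) k 0 := by
        simpa using (hasDerivAt_id (0:ℝ)).const_mul k
      exact (Real.hasDerivAt_sinh (k * 0)).comp 0 h3
    rw [mul_zero, Real.cosh_zero, one_mul] at h2
    have h3 := h2.tendsto_slope_zero_right
    refine h3.congr' ?_
    filter_upwards with s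
    rw [zero_add, mul_zero, Real.sinh_zero, sub_zero, smul_eq_mul]
  have h5 : ‖D.J t A‖ * k ≤ ‖D.J1 0 A‖ * Real.sinh (k * t) := by
    refine le_of_tendsto_of_tendsto (hlim2.const_mul ‖D.J t A‖) (hlim1.mul_const _) ?_
    filter_upwards [Ioo_mem_nhdsGT ht.1] with s hs
    have h6 := mul_le_mul_of_nonneg_left (h1 s hs) (inv_nonneg.2 hs.1.le)
    calc ‖D.J t A‖ * (s⁻¹ * Real.sinh (k * s)) = s⁻¹ * (‖D.J t A‖ * Real.sinh (k * s)) := by ring
      _ ≤ s⁻¹ * (‖D.J s A‖ * Real.sinh (k * t)) := h6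
      _ = _ := by ring
  rw [div_mul_eq_mul_div, le_div_iff₀ hk]
  linarith

end

end

end Pool.Agent.Helper74.SO2
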