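import Pool.Agent.Helper74.SO2.Path
import Pool.Agent.Helper74.SO2.Rauch

/-! Project SO2 (MP_2d033b_gt): the exponential map on the unit normal sphere. -/

namespace Pool.Agent.Helper74.SO2

open Filter Topology Set Pool.Agent.Helper54.SO
open scoped ContDiff

noncomputable section

theorem joinLe_symm {E : Type*} [NormedAddCommGroup E] [InnerProductSpace ℝ E] {S : Set E} {a : ℝ}
    {x y : E} (h : JoinLe S a x y) : JoinLe S a y x := by
  obtain ⟨ha, c, hc, hS, h0, h1⟩ := h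
  have hI : ∀ s ∈ Icc 0 a, a - s ∈ Icc 0 a := fun s hs => ⟨by linarith [hs.2], by linarith [hs.1]⟩
  refine ⟨ha, fun s => c (a - s), ?_, fun s hs => hS _ (hI s hs), ?_, ?_⟩
  · apply LipschitzOnWith.of_dist_le_mul
    intro s hs r hr
    have h2 := hc.dist_le_mul _ (hI s hs) _ (hI r hr)
    rw [Real.dist_eq] at h2 ⊢
    have h3 : a - s - (a - r) = -(s - r) := by ring
    rwa [h3, abs_neg] at h2
  · change c (a - 0) = y
    rw [sub_zero, h1]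
  · change c (a - a) = x
    rw [sub_self, h0]

theorem norm_normalize_sub {E : Type*} [NormedAddCommGroup E] [InnerProductSpace ℝ E] {a b : E}
    (ha : 1 / 2 ≤ ‖a‖) (hb : 1 / 2 ≤ ‖b‖) : ‖‖a‖⁻¹ • a - ‖b‖⁻¹ • b‖ ≤ 4 * ‖a - b‖ := by
  have ha0 : 0 < ‖a‖ := by linarith
  have hb0 : 0 < ‖b‖ := by linarith
  have h1 : ‖a‖⁻¹ • a - ‖b‖⁻¹ • b = ‖a‖⁻¹ • (a - b) + (‖a‖⁻¹ - ‖b‖⁻¹) • b := by
    rw [smul_sub, sub_smul]; abel
  have h2 : ‖(‖a‖⁻¹ - ‖b‖⁻¹) • b‖ ≤ ‖a‖⁻¹ * ‖a - b‖ := by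
    rw [norm_smul, Real.norm_eq_abs, ← abs_of_pos hb0, ← abs_mul, abs_of_pos hb0]
    have h3 : (‖a‖⁻¹ - ‖b‖⁻¹) * ‖b‖ = ‖a‖⁻¹ * (‖b‖ - ‖a‖) := by field_simp
    rw [h3, abs_mul, abs_of_pos (inv_pos.2 ha0)]
    refine mul_le_mul_of_nonneg_left ?_ (inv_pos.2 ha0).le
    rw [norm_sub_rev]
    exact abs_norm_sub_norm_le b a
  have h4 : ‖‖a‖⁻¹ • (a - b)‖ = ‖a‖⁻¹ * ‖a - b‖ := by
    rw [norm_smul, norm_inv, norm_norm]
  have h5 : ‖a‖⁻¹ ≤ 2 := by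
    rw [inv_le_comm₀ ha0 (by norm_num)]; linarith
  rw [h1]
  calc _ ≤ ‖‖a‖⁻¹ • (a - b)‖ + ‖(‖a‖⁻¹ - ‖b‖⁻¹) • b‖ := norm_add_le _ _
    _ ≤ ‖a‖⁻¹ * ‖a - b‖ + ‖a‖⁻¹ * ‖a - b‖ := by rw [h4]; linarith
    _ ≤ 4 * ‖a - b‖ := by nlinarith [norm_nonneg (a - b)]

section
variable {E : Type*} [NormedAddCommGroup E] [InnerProductSpace ℝ E] [FiniteDimensional ℝ E]
  {Γ : Type*} [Group Γ] {k T : ℝ}

theorem apply_eq_zero_of_exp_fix (D : End E Γ k T) {A : E →L[ℝ] E} (hA : A ∈ D.𝔤) {x : E}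
    (hn : ‖A‖ < 1) (h : NormedSpace.exp A x = x) : A x = 0 := by
  have h1 := exp_sub_sub_le D hA x
  rw [h, sub_self, zero_sub, norm_neg] at h1
  by_contra hne
  have h2 : 0 < ‖A x‖ := norm_pos_iff.2 hne
  nlinarith

/-- compactness: if `u` almost fixes `γ' 0` then it almost fixes `γ t` -/
theorem near_of_closed (D : Tube E Γ k T) {t : ℝ} (ht : t ∈ Ioo 0 T) {η : ℝ} (hη : 0 < η) :
    ∃ r > 0, ∀ u : Γ, D.ρ u (D.γ 0) = D.γ 0 → ‖D.ρ u (deriv D.γ 0) - deriv D.γ 0‖ < r →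
      ‖D.ρ u (D.γ t) - D.γ t‖ < η := by
  by_contra hcon
  push Not at hcon
  have hpos : ∀ j : ℕ, (0:ℝ) < 1 / ((j:ℝ) + 1) := fun j => by positivity
  choose u hu1 hu2 hu3 using fun j : ℕ => hcon _ (hpos j)
  set L : ℕ → (E →L[ℝ] E) := fun j => (D.ρ (u j)).toContinuousLinearEquiv.toContinuousLinearMap
    with hL
  have hLx : ∀ j x, L j x = D.ρ (u j) x := fun j x => rfl
  have hproper : ProperSpace (E →L[ℝ] E) := FiniteDimensional.proper ℝ (E →L[ℝ] E)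
  have hLb : ∀ j, L j ∈ Metric.closedBall (0 : E →L[ℝ] E) 1 := fun j => by
    rw [mem_closedBall_zero_iff]
    exact ContinuousLinearMap.opNorm_le_bound _ zero_le_one fun x => by
      rw [hLx, LinearIsometryEquiv.norm_map, one_mul]
  obtain ⟨L₀, -, φ, hφ, hlim⟩ := tendsto_subseq_of_bounded Metric.isBounded_closedBall hLb
  have happ : ∀ x, Tendsto (fun j => D.ρ (u (φ j)) x) atTop (𝓝 (L₀ x)) := fun x =>
    ((ContinuousLinearMap.apply ℝ E x).continuous.tendsto L₀).comp hlim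
  have hnorm : ∀ x, ‖L₀ x‖ = ‖x‖ := fun x => by
    refine tendsto_nhds_unique (happ x).norm ?_
    simp only [LinearIsometryEquiv.norm_map]
    exact tendsto_const_nhds
  set Λ : E →ₗᵢ[ℝ] E := ⟨L₀.toLinearMap, hnorm⟩ with hΛ
  set ψ : E ≃ₗᵢ[ℝ] E := Λ.toLinearIsometryEquiv rfl with hψ
  have hψx : ∀ x, ψ x = L₀ x := fun x => rfl
  obtain ⟨g, hg⟩ := D.closed ψ (by
    intro ε hε
    obtain ⟨j, hj⟩ := ((Metric.tendsto_nhds.1 hlim) ε hε).exists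
    refine ⟨u (φ j), fun x => ?_⟩
    have h1 : D.ρ (u (φ j)) x - ψ x = (L (φ j) - L₀) x := by rw [hψx]; rfl
    rw [h1]
    refine (ContinuousLinearMap.le_opNorm _ x).trans
      (mul_le_mul_of_nonneg_right ?_ (norm_nonneg _))
    rw [dist_eq_norm] at hj
    exact hj.le)
  have hgx : ∀ x, D.ρ g x = L₀ x := fun x => by rw [hg, hψx]
  have hg0 : D.ρ g (D.γ 0) = D.γ 0 := by
    rw [hgx]
    refine tendsto_nhds_unique (happ _) ?_
    simp only [hu1]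
    exact tendsto_const_nhds
  have hg1 : D.ρ g (deriv D.γ 0) = deriv D.γ 0 := by
    rw [hgx]
    have h2 : Tendsto (fun j => D.ρ (u (φ j)) (deriv D.γ 0) - deriv D.γ 0) atTop (𝓝 0) := by
      rw [tendsto_zero_iff_norm_tendsto_zero]
      refine squeeze_zero (fun _ => norm_nonneg _) (fun j => (hu2 (φ j)).le) ?_
      exact tendsto_one_div_add_atTop_nhds_zero_nat.comp hφ.tendsto_atTop
    have h3 := tendsto_nhds_unique h2 ((happ (deriv D.γ 0)).sub_const _)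
    exact (sub_eq_zero.1 h3.symm)
  have hgt := (D.stab g hg0 t ht).2 hg1
  have h4 : Tendsto (fun j => ‖D.ρ (u (φ j)) (D.γ t) - D.γ t‖) atTop (𝓝 0) := by
    have h5 := ((happ (D.γ t)).sub_const (D.γ t)).norm
    rwa [← hgx, hgt, sub_self, norm_zero] at h5
  have h5 : η ≤ 0 := ge_of_tendsto h4 (Eventually.of_forall fun j => hu3 (φ j))
  linarith

/-- the local Lipschitz estimate at `γ' 0` -/
theorem local_sph (D : Tube E Γ k T) (hk : 0 < k) {t : ℝ} (ht : t ∈ Ioo 0 T) :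
    ∃ r > 0, ∀ u : Γ, D.ρ u (D.γ 0) = D.γ 0 → ‖D.ρ u (deriv D.γ 0) - deriv D.γ 0‖ < r →
      JoinLe D.M (2 * (Real.sinh (k * t) / k) * ‖D.ρ u (deriv D.γ 0) - deriv D.γ 0‖) (D.γ t)
        (D.ρ u (D.γ t)) := by
  have hT : 0 < T := ht.1.trans ht.2
  have htT : t ∈ Ioo (-T) T := ⟨by linarith [ht.1], ht.2⟩
  have hqM : D.γ t ∈ D.M := D.mem t htT
  have hC : 0 < Real.sinh (k * t) / k := div_pos (Real.sinh_pos_iff.2 (mul_pos hk ht.1)) hk
  have hloc := D.loc t htT (min (1 / 2) (t / 2)) (lt_min (by norm_num) (by linarith [ht.1]))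
  obtain ⟨η, hη, hball⟩ := Metric.mem_nhdsWithin_iff.1 hloc
  obtain ⟨r, hr, hnear⟩ := near_of_closed D ht hη
  refine ⟨r, hr, fun u hu hur => ?_⟩
  rcases eq_or_ne (D.ρ u (deriv D.γ 0)) (deriv D.γ 0) with heq | hne
  · rw [(D.stab u hu t ht).2 heq, heq, sub_self, norm_zero, mul_zero]
    exact JoinLe.refl hqM
  have hd0 : 0 < ‖D.ρ u (deriv D.γ 0) - deriv D.γ 0‖ := norm_pos_iff.2 (sub_ne_zero.2 hne)
  have hy : D.ρ u (D.γ t) ∈ Metric.ball (D.γ t) η ∩ D.M :=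
    ⟨by rw [Metric.mem_ball, dist_eq_norm]; exact hnear u hu hur, D.inv u _ hqM⟩
  obtain ⟨A, hA, hAn, l, hl, s, hs, hst, hy⟩ := hball hy
  have hAn' : ‖A‖ ≤ 1 / 2 := hAn.trans (min_le_left _ _)
  have hst' : |s - t| ≤ t / 2 := hst.trans (min_le_right _ _)
  have hs0 : 0 < s := by have := (abs_le.1 hst').1; linarith [ht.1]
  obtain ⟨e, he⟩ := D.exp A hA
  have hl0 : D.ρ l (D.γ 0) = D.γ 0 := (D.foot l t htT t htT hl).1
  have h1 : D.ρ ((e * l)⁻¹ * u) (D.γ t) = D.γ s := by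
    rw [D.ρ_mul, hy, ← he, ← D.ρ_mul e l, ← D.ρ_mul, inv_mul_cancel, D.ρ_one]
  obtain ⟨h2, h3⟩ := D.foot _ t htT s hs h1
  have hst2 : s = t := by
    rw [abs_of_pos ht.1, abs_of_pos hs0] at h3; exact h3.symm
  have hut : D.ρ u (D.γ t) = NormedSpace.exp A (D.γ t) := by rw [hy, hst2, hl]
  -- `e` fixes `p`
  have he0 : D.ρ e (D.γ 0) = D.γ 0 := by
    have h4 := inv_fix D.toEnd h2
    rw [mul_inv_rev, inv_inv] at h4
    -- h4 : (u⁻¹ * (e * l)) p = p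
    have h5 : e = u * (u⁻¹ * (e * l)) * l⁻¹ := by group
    rw [h5]
    exact mul_fix D.toEnd (mul_fix D.toEnd hu h4) (inv_fix D.toEnd hl0)
  have hAp : A (D.γ 0) = 0 :=
    apply_eq_zero_of_exp_fix D.toEnd hA (by linarith) (by rw [← he]; exact he0)
  -- `e⁻¹ u` fixes `γ t`, hence `γ' 0`
  have h6 : D.ρ (e⁻¹ * u) (D.γ t) = D.γ t := by
    rw [D.ρ_mul, hut, ← he, ← D.ρ_mul, inv_mul_cancel, D.ρ_one]
  have h7 : D.ρ (e⁻¹ * u) (D.γ 0) = D.γ 0 := mul_fix D.toEnd (inv_fix D.toEnd he0) hu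
  have h8 := (D.stab _ h7 t ht).1 h6
  have huv : D.ρ u (deriv D.γ 0) = NormedSpace.exp A (deriv D.γ 0) := by
    have h9 : D.ρ (e * (e⁻¹ * u)) (deriv D.γ 0) = D.ρ e (deriv D.γ 0) := by
      rw [D.ρ_mul, h8]
    rwa [mul_inv_cancel_left, he] at h9
  have h10 : ‖A (deriv D.γ 0)‖ ≤ 2 * ‖D.ρ u (deriv D.γ 0) - deriv D.γ 0‖ := by
    have h11 := exp_sub_sub_le D.toEnd hA (deriv D.γ 0)
    rw [← huv] at h11
    have h12 : ‖A (deriv D.γ 0)‖ ≤ ‖D.ρ u (deriv D.γ 0) - deriv D.γ 0‖ +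
        ‖D.ρ u (deriv D.γ 0) - deriv D.γ 0 - A (deriv D.γ 0)‖ := by
      have h13 : A (deriv D.γ 0) = (D.ρ u (deriv D.γ 0) - deriv D.γ 0) -
        (D.ρ u (deriv D.γ 0) - deriv D.γ 0 - A (deriv D.γ 0)) := by abel
      conv_lhs => rw [h13]
      exact norm_sub_le _ _
    nlinarith [norm_nonneg (A (deriv D.γ 0))]
  have h14 : ‖A (D.γ t)‖ ≤ Real.sinh (k * t) / k * ‖A (deriv D.γ 0)‖ :=
    rauch (D.toEnd.toJF hT) hk ⟨A, hA⟩ hAp ht
  set K : ℝ := 2 * (Real.sinh (k * t) / k) * ‖D.ρ u (deriv D.γ 0) - deriv D.γ 0‖ with hK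
  have hK0 : 0 < K := by positivity
  have h15 : ‖A (D.γ t)‖ ≤ K := by
    refine h14.trans ?_
    rw [hK]
    nlinarith
  have h16 := JoinLe.of_lip (S := D.M) hK0 (fun r : ℝ => NormedSpace.exp (r • A) (D.γ t)) ?_ ?_
  · simp only [zero_smul, one_smul, NormedSpace.exp_zero, one_apply_eq_self] at h16
    rw [hut]; exact h16
  · intro r _
    obtain ⟨g, hg⟩ := D.exp (r • A) (D.𝔤.smul_mem r hA)
    rw [← hg]
    exact D.inv g _ hqM
  · intro r _ r' _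
    have h17 := convex_univ.norm_image_sub_le_of_norm_hasDerivWithin_le
      (f := fun r : ℝ => NormedSpace.exp (r • A) (D.γ t))
      (f' := fun r : ℝ => NormedSpace.exp (r • A) (A (D.γ t))) (C := K)
      (fun r _ => (hasDerivAt_exp_apply A (D.γ t) r).hasDerivWithinAt)
      (fun r _ => by rw [norm_exp D.toEnd (D.𝔤.smul_mem r hA)]; exact h15)
      (Set.mem_univ r') (Set.mem_univ r)
    rw [Real.norm_eq_abs] at h17
    exact h17

/-- The point of the geodesic with the initial vector `v` at the time `t`. -/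
def pt (D : Tube E Γ k T) (t : ℝ) (v : E) : E := by
  classical
  exact if h : ∃ g : Γ, D.ρ g (D.γ 0) = D.γ 0 ∧ D.ρ g (deriv D.γ 0) = v then D.ρ h.choose (D.γ t)
    else D.γ t

theorem pt_eq (D : Tube E Γ k T) {t : ℝ} (ht : t ∈ Ioo 0 T) {g : Γ} (hg : D.ρ g (D.γ 0) = D.γ 0)
    {v : E} (hv : D.ρ g (deriv D.γ 0) = v) : pt D t v = D.ρ g (D.γ t) := by
  classical
  have h : ∃ g : Γ, D.ρ g (D.γ 0) = D.γ 0 ∧ D.ρ g (deriv D.γ 0) = v := ⟨g, hg, hv⟩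
  have h1 : pt D t v = D.ρ h.choose (D.γ t) := by
    unfold pt; exact dif_pos h
  obtain ⟨h2, h3⟩ := h.choose_spec
  rw [h1]
  set g' := h.choose
  have h4 : D.ρ (g⁻¹ * g') (D.γ 0) = D.γ 0 := mul_fix D.toEnd (inv_fix D.toEnd hg) h2
  have h5 : D.ρ (g⁻¹ * g') (deriv D.γ 0) = deriv D.γ 0 := by
    rw [D.ρ_mul, h3, ← hv, ← D.ρ_mul, inv_mul_cancel, D.ρ_one]
  have h6 := (D.stab _ h4 t ht).2 h5
  have h7 : D.ρ (g * (g⁻¹ * g')) (D.γ t) = D.ρ g (D.γ t) := by rw [D.ρ_mul, h6]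
  rwa [mul_inv_cancel_left] at h7

theorem pt_equi (D : Tube E Γ k T) {t : ℝ} (ht : t ∈ Ioo 0 T) {l : Γ}
    (hl : D.ρ l (D.γ 0) = D.γ 0) {v : E} (hv : v ∈ nrm D.toEnd) (hv1 : ‖v‖ = 1) :
    pt D t (D.ρ l v) = D.ρ l (pt D t v) := by
  obtain ⟨g, hg, hgv⟩ := D.trans v hv hv1
  rw [pt_eq D ht hg hgv, pt_eq D ht (mul_fix D.toEnd hl hg) (v := D.ρ l v) (by rw [D.ρ_mul, hgv]),
    D.ρ_mul]

theorem pt_mem (D : Tube E Γ k T) {t : ℝ} (ht : t ∈ Ioo 0 T) (v : E) : pt D t v ∈ D.M := by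
  classical
  have hqM : D.γ t ∈ D.M := D.mem t ⟨by linarith [ht.1, ht.2], ht.2⟩
  unfold pt
  split_ifs with h
  · exact D.inv _ _ hqM
  · exact hqM

/-- local Lipschitz estimate at every unit normal vector -/
theorem local_sph' (D : Tube E Γ k T) (hk : 0 < k) {t : ℝ} (ht : t ∈ Ioo 0 T) {v : E}
    (hv : v ∈ nrm D.toEnd) (hv1 : ‖v‖ = 1) :
    ∃ r > 0, ∀ w ∈ nrm D.toEnd, ‖w‖ = 1 → ‖w - v‖ < r →
      JoinLe D.M (2 * (Real.sinh (k * t) / k) * ‖w - v‖) (pt D t v) (pt D t w) := by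
  obtain ⟨r, hr, h⟩ := local_sph D hk ht
  refine ⟨r, hr, fun w hw hw1 hwv => ?_⟩
  obtain ⟨g, hg, hgv⟩ := D.trans v hv hv1
  obtain ⟨g', hg', hgw⟩ := D.trans w hw hw1
  have h1 : D.ρ (g⁻¹ * g') (D.γ 0) = D.γ 0 := mul_fix D.toEnd (inv_fix D.toEnd hg) hg'
  have h2 : ‖D.ρ (g⁻¹ * g') (deriv D.γ 0) - deriv D.γ 0‖ = ‖w - v‖ := by
    have h3 : deriv D.γ 0 = D.ρ g⁻¹ v := by
      rw [← hgv, ← D.ρ_mul, inv_mul_cancel, D.ρ_one]
    rw [D.ρ_mul, hgw]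
    conv_lhs => rw [h3]
    rw [← map_sub, LinearIsometryEquiv.norm_map]
  have h3 := h _ h1 (by rw [h2]; exact hwv)
  rw [h2] at h3
  have h4 := h3.map (D.ρ g) (D.inv g)
  rw [← D.ρ_mul, mul_inv_cancel_left, ← pt_eq D ht hg hgv, ← pt_eq D ht hg' hgw] at h4
  exact h4

/-- Lipschitz estimate for unit normal vectors at distance at most one -/
theorem lip_sph (D : Tube E Γ k T) (hk : 0 < k) {t : ℝ} (ht : t ∈ Ioo 0 T) {v w : E}
    (hv : v ∈ nrm D.toEnd) (hv1 : ‖v‖ = 1) (hw : w ∈ nrm D.toEnd) (hw1 : ‖w‖ = 1)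
    (hvw : ‖w - v‖ ≤ 1) :
    JoinLe D.M (8 * (Real.sinh (k * t) / k) * ‖w - v‖) (pt D t v) (pt D t w) := by
  have hC : 0 < Real.sinh (k * t) / k := div_pos (Real.sinh_pos_iff.2 (mul_pos hk ht.1)) hk
  set C := Real.sinh (k * t) / k with hCdef
  set x : ℝ → E := fun s => v + s • (w - v) with hx
  have hxn : ∀ s ∈ Icc (0:ℝ) 1, 1 / 2 ≤ ‖x s‖ := by
    intro s hs
    rcases le_total s (1 / 2) with h | h
    · have h1 : ‖v‖ ≤ ‖x s‖ + ‖s • (w - v)‖ := by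
        have h2 : v = x s - s • (w - v) := by simp only [hx]; abel
        conv_lhs => rw [h2]
        exact norm_sub_le _ _
      rw [norm_smul, Real.norm_of_nonneg hs.1, hv1] at h1
      nlinarith [norm_nonneg (w - v)]
    · have h1 : ‖w‖ ≤ ‖x s‖ + ‖(1 - s) • (w - v)‖ := by
        have h2 : w = x s + (1 - s) • (w - v) := by
          simp only [hx]; rw [sub_smul, one_smul]; abel
        conv_lhs => rw [h2]
        exact norm_add_le _ _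
      rw [norm_smul, Real.norm_of_nonneg (by linarith [hs.2]), hw1] at h1
      nlinarith [norm_nonneg (w - v)]
  set u : ℝ → E := fun s => ‖x s‖⁻¹ • x s with hu
  have hun : ∀ s ∈ Icc (0:ℝ) 1, u s ∈ nrm D.toEnd := fun s _ =>
    (nrm D.toEnd).smul_mem _ ((nrm D.toEnd).add_mem hv ((nrm D.toEnd).smul_mem _
      ((nrm D.toEnd).sub_mem hw hv)))
  have hu1 : ∀ s ∈ Icc (0:ℝ) 1, ‖u s‖ = 1 := by
    intro s hs
    have h1 : 0 < ‖x s‖ := by linarith [hxn s hs]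
    simp only [hu]
    rw [norm_smul, norm_inv, norm_norm, inv_mul_cancel₀ h1.ne']
  have hud : ∀ s ∈ Icc (0:ℝ) 1, ∀ s' ∈ Icc (0:ℝ) 1, ‖u s - u s'‖ ≤ 4 * (|s - s'| * ‖w - v‖) := by
    intro s hs s' hs'
    refine (norm_normalize_sub (hxn s hs) (hxn s' hs')).trans ?_
    have h1 : x s - x s' = (s - s') • (w - v) := by simp only [hx]; rw [sub_smul]; abel
    rw [h1, norm_smul, Real.norm_eq_abs]
  have hu0 : u 0 = v := by simp [hu, hx, hv1]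
  have hu1' : u 1 = w := by simp [hu, hx, hw1]
  set K : ℝ := 8 * C * ‖w - v‖ with hK
  have hK0 : 0 ≤ K := by positivity
  have hP := creep (a := 1) zero_le_one (fun s => JoinLe D.M (K * s) (pt D t v) (pt D t (u s))) ?_ ?_
  · rw [hu1', mul_one] at hP; exact hP
  · rw [hu0, mul_zero]; exact JoinLe.refl (pt_mem D ht v)
  · intro s₀ hs₀
    obtain ⟨r, hr, h⟩ := local_sph' D hk ht (hun s₀ hs₀) (hu1 s₀ hs₀)
    refine ⟨r / (4 * ‖w - v‖ + 1), by positivity, fun s hs hss => ?_⟩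
    have h1 : ‖u s - u s₀‖ ≤ 4 * (|s - s₀| * ‖w - v‖) := hud s hs s₀ hs₀
    have h2 : ‖u s - u s₀‖ < r := by
      rw [lt_div_iff₀ (by positivity)] at hss
      have h3 : 0 ≤ |s - s₀| := abs_nonneg _
      rcases eq_or_lt_of_le h3 with h4 | h4
      · rw [← h4] at h1
        have : ‖u s - u s₀‖ ≤ 0 := by linarith
        linarith
      · nlinarith [norm_nonneg (w - v)]
    have h3 := h (u s) (hun s hs) (hu1 s hs) h2
    have h4 : 2 * C * ‖u s - u s₀‖ ≤ K * |s - s₀| := by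
      rw [hK]
      nlinarith
    have h5 := h3.mono h4
    constructor
    · intro hle hP
      rw [abs_of_nonneg (by linarith)] at h5
      exact (hP.trans h5).mono (le_of_eq (by ring))
    · intro hle hP
      rw [abs_of_nonpos (by linarith)] at h5
      exact (hP.trans (joinLe_symm h5)).mono (le_of_eq (by ring))

end

end

end Pool.Agent.Helper74.SO2
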